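import Pool.Agent.Helper36.LIM.L4a

/-!
LIM: the closure of the extreme traces of finite conditional dimension
-/

set_option autoImplicit false

open Filter Topology Helper17 Helper17.FU Helper17.FUGroup Helper91.TTT
open scoped ComplexOrder ComplexConjugate InnerProductSpace

namespace Helper35.LIMC

open Helper35.LIM (OrbitLimit)

section Gen

variable {G : Type*} [Group G] {φ : G → ℂ}

/-- averages of powers of `τ` -/
lemma norm_xx_le [Fact (PD φ)] (τ : G) {L : ℕ} (hL : 0 < L) :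
    ‖xx φ τ 1 L‖ ^ 2 ≤ Real.sqrt (WW φ τ L / (L : ℝ) ^ 2) := by
  have hLr : (0 : ℝ) < L := by exact_mod_cast hL
  have h1 : ((‖xx φ τ 1 L‖ ^ 2 : ℝ) : ℂ) = (1 / (L : ℂ) ^ 2) *
      ∑ i ∈ Finset.range L, ∑ j ∈ Finset.range L, φ (τ ^ ((j : ℤ) - i)) := by
    have h2 : ((‖xx φ τ 1 L‖ ^ 2 : ℝ) : ℂ) = ⟪xx φ τ 1 L, xx φ τ 1 L⟫_ℂ := by
      rw [inner_self_eq_norm_sq_to_K]; push_cast; rfl
    rw [h2]
    unfold xx
    rw [sum_inner, Finset.mul_sum]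
    refine Finset.sum_congr rfl (fun i _ => ?_)
    rw [inner_sum, Finset.mul_sum]
    refine Finset.sum_congr rfl (fun j _ => ?_)
    rw [inner_smul_left, inner_smul_right, inner_dl, ← zpow_neg, ← zpow_add]
    have e : -(1 * (i : ℤ)) + 1 * (j : ℤ) = (j : ℤ) - i := by ring
    rw [e]
    simp only [map_div₀, map_one, Complex.conj_natCast]
    ring
  have h3 : ‖xx φ τ 1 L‖ ^ 2 ≤ (1 / (L : ℝ) ^ 2) *
      ∑ p ∈ Finset.range L ×ˢ Finset.range L, ‖φ (τ ^ ((p.1 : ℤ) - p.2))‖ := by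
    have h4 : ‖((‖xx φ τ 1 L‖ ^ 2 : ℝ) : ℂ)‖ ≤ (1 / (L : ℝ) ^ 2) *
        ∑ p ∈ Finset.range L ×ˢ Finset.range L, ‖φ (τ ^ ((p.1 : ℤ) - p.2))‖ := by
      rw [h1, norm_mul]
      have h5 : ‖1 / (L : ℂ) ^ 2‖ = 1 / (L : ℝ) ^ 2 := by simp
      rw [h5]
      refine mul_le_mul_of_nonneg_left ?_ (by positivity)
      rw [Finset.sum_product_right]
      refine (norm_sum_le _ _).trans (Finset.sum_le_sum (fun i _ => norm_sum_le _ _))
    rwa [Complex.norm_real, Real.norm_of_nonneg (by positivity)] at h4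
  have h6 : (∑ p ∈ Finset.range L ×ˢ Finset.range L, ‖φ (τ ^ ((p.1 : ℤ) - p.2))‖) ^ 2 ≤
      (L : ℝ) ^ 2 * WW φ τ L := by
    have h7 := sq_sum_le_card_mul_sum_sq (s := Finset.range L ×ˢ Finset.range L)
      (f := fun p : ℕ × ℕ => ‖φ (τ ^ ((p.1 : ℤ) - p.2))‖)
    rw [Finset.card_product, Finset.card_range] at h7
    unfold WW
    rw [← Finset.sum_product' (f := fun i j : ℕ => ‖φ (τ ^ ((i : ℤ) - j))‖ ^ 2)]
    push_cast at h7
    rw [sq (L : ℝ)]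
    exact h7
  refine h3.trans (Real.le_sqrt_of_sq_le ?_)
  rw [mul_pow]
  calc (1 / (L : ℝ) ^ 2) ^ 2 * _ ≤ (1 / (L : ℝ) ^ 2) ^ 2 * ((L : ℝ) ^ 2 * WW φ τ L) :=
        mul_le_mul_of_nonneg_left h6 (by positivity)
    _ = WW φ τ L / (L : ℝ) ^ 2 := by field_simp

/-- values at elements with many conjugates -/
lemma norm_off_le (hφ : φ ∈ TR G) {τ g : G}
    (hconj : ∀ n : ℕ, ∃ ρ : G, τ ^ (n : ℤ) * g = ρ * g * ρ⁻¹) {L : ℕ} (hL : 0 < L) :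
    ‖φ g‖ ^ 2 ≤ Real.sqrt (WW φ τ L / (L : ℝ) ^ 2) := by
  have hF : Fact (PD φ) := ⟨hφ.2.2⟩
  have hLc : (L : ℂ) ≠ 0 := by exact_mod_cast hL.ne'
  refine le_trans ?_ (norm_xx_le τ hL)
  have hxn : ‖Rm g (xx φ τ 1 L)‖ = ‖xx φ τ 1 L‖ := norm_Rm hφ.2.1 g _
  have h1 : Rm g (xx φ τ 1 L) =
      ∑ n ∈ Finset.range L, (1 / (L : ℂ)) • dl φ (τ ^ (1 * (n : ℤ)) * g) := by
    unfold xx
    rw [map_sum]
    refine Finset.sum_congr rfl (fun n _ => ?_)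
    rw [map_smul, Rm_dl]
  have h2 : ⟪dl φ 1, Rm g (xx φ τ 1 L)⟫_ℂ = φ g := by
    rw [h1, inner_sum]
    have h3 : ∀ n ∈ Finset.range L, ⟪dl φ 1, (1 / (L : ℂ)) • dl φ (τ ^ (1 * (n : ℤ)) * g)⟫_ℂ =
        (1 / (L : ℂ)) * φ g := by
      intro n _
      obtain ⟨ρ, hρ⟩ := hconj n
      rw [inner_smul_right, inner_dl, inv_one, one_mul, one_mul, hρ, hφ.2.1]
    rw [Finset.sum_congr rfl h3, Finset.sum_const, Finset.card_range, nsmul_eq_mul]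
    field_simp
  have h5 := norm_inner_le_norm (𝕜 := ℂ) (dl φ 1) (Rm g (xx φ τ 1 L))
  rw [norm_dl hφ.1, one_mul, h2, hxn] at h5
  gcongr

end Gen

variable {s2 s3 t : Equiv.Perm ℚ}

/-- L4b. -/
theorem closure_of_limit (h2 : ∀ x : ℚ, s2 x = 2 * x) (h3 : ∀ x : ℚ, s3 x = 3 * x)
    (ht : ∀ x : ℚ, t x = x + 1) {τ : GG s2 s3 t} (hτ : (τ : Equiv.Perm ℚ) = t)
    {φ : GG s2 s3 t → ℂ} (hφ : φ ∈ Set.extremePoints ℝ (TR (GG s2 s3 t)))
    (h : OrbitLimit (fun n => φ (τ ^ n))) :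
    φ ∈ closure {ψ : GG s2 s3 t → ℂ | ψ ∈ Set.extremePoints ℝ (TR (GG s2 s3 t)) ∧
      FiniteDimensional ℂ (Submodule.span ℂ {F : GG s2 s3 t → ℂ | ∃ n : GG s2 s3 t,
        IsTr n ∧ F = fun x => ψ (n * x)})} := by
  by_cases hfd : FiniteDimensional ℂ (Submodule.span ℂ {F : GG s2 s3 t → ℂ | ∃ n : GG s2 s3 t,
      IsTr n ∧ F = fun x => φ (n * x)})
  · exact subset_closure ⟨hφ, hfd⟩
  have hex : ∀ N : ℕ, ∃ ψ : GG s2 s3 t → ℂ, ψ ∈ Set.extremePoints ℝ (TR (GG s2 s3 t)) ∧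
      FiniteDimensional ℂ (Submodule.span ℂ {F : GG s2 s3 t → ℂ | ∃ n : GG s2 s3 t,
        IsTr n ∧ F = fun x => ψ (n * x)}) ∧
      ∀ n : ℤ, |n| ≤ N → ‖ψ (τ ^ n) - φ (τ ^ n)‖ ≤ 1 / ((N : ℝ) + 1) := by
    intro N
    obtain ⟨r, i, j, hi, hj, hri, hrj, hrn⟩ := h N (1 / ((N : ℝ) + 1)) (by positivity)
    obtain ⟨ψ, hψ1, hψ2, hψ3⟩ := Helper36.LIMA.exists_extreme_orbit h2 h3 ht hτ r i j hi hj hri hrj
    refine ⟨ψ, hψ1, hψ2, fun n hn => ?_⟩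
    rw [hψ3]
    exact hrn n hn
  choose ψ hψ1 hψ2 hψ3 using hex
  have hpow : ∀ m : ℤ, Tendsto (fun N => ψ N (τ ^ m)) atTop (𝓝 (φ (τ ^ m))) := by
    intro m
    rw [tendsto_iff_norm_sub_tendsto_zero]
    refine squeeze_zero' (Eventually.of_forall fun _ => norm_nonneg _) ?_
      tendsto_one_div_add_atTop_nhds_zero_nat
    filter_upwards [eventually_ge_atTop m.natAbs] with N hN
    apply hψ3
    rw [Int.abs_eq_natAbs]
    exact_mod_cast hN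
  refine mem_closure_of_tendsto (f := ψ) (b := atTop) (tendsto_pi_nhds.2 fun g => ?_)
    (Eventually.of_forall fun N => ⟨hψ1 N, hψ2 N⟩)
  by_cases hg : IsTr g
  · obtain ⟨m, σ, hσ, -⟩ := trans_conj' h2 h3 ht hτ g hg
    have e1 : ∀ N, ψ N g = ψ N (τ ^ m) := fun N => by rw [hσ, (hψ1 N).1.2.1]
    have e2 : φ g = φ (τ ^ m) := by rw [hσ, hφ.1.2.1]
    rw [e2]
    simp only [e1]
    exact hpow m
  · obtain ⟨D, hD, hconj⟩ := off_conj h2 h3 ht hτ g hg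
    rw [exotic_off h2 h3 ht hφ hfd g hg, tendsto_zero_iff_norm_tendsto_zero]
    rw [Metric.tendsto_atTop]
    intro ε hε
    have hW := (ww_tendsto h2 h3 ht hτ hφ hfd D hD).sqrt
    rw [Real.sqrt_zero] at hW
    obtain ⟨L, hL1, hL2⟩ := ((hW.eventually (eventually_lt_nhds (show (0 : ℝ) < ε ^ 2 by
      positivity))).and (eventually_gt_atTop 0)).exists
    have hWN : Tendsto (fun N => Real.sqrt (WW (ψ N) (τ ^ D) L / (L : ℝ) ^ 2)) atTop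
        (𝓝 (Real.sqrt (WW φ (τ ^ D) L / (L : ℝ) ^ 2))) := by
      apply Tendsto.sqrt
      apply Tendsto.div_const
      unfold WW
      refine tendsto_finsetSum _ fun i _ => tendsto_finsetSum _ fun j _ => ?_
      rw [← zpow_mul]
      exact ((hpow _).norm).pow 2
    obtain ⟨N0, hN0⟩ := Filter.eventually_atTop.1 (hWN.eventually (eventually_lt_nhds hL1))
    refine ⟨N0, fun N hN => ?_⟩
    rw [Real.dist_eq, sub_zero, abs_norm]
    have h5 := norm_off_le (hψ1 N).1 hconj hL2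
    have h6 : ‖ψ N g‖ ^ 2 < ε ^ 2 := lt_of_le_of_lt h5 (hN0 N hN)
    exact lt_of_pow_lt_pow_left₀ 2 hε.le h6

end Helper35.LIMC
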