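import Mathlib
import Pool.Agent.Helper75.RE.Arcs
import Pool.Agent.Helper40.TMA.Mean

/-!
LIM: definitions. Few arcs, fast approximation by finite invariant sets, limits of finite orbits.
-/

set_option autoImplicit false

open MeasureTheory Finset Filter Topology
open Helper75.RE (arc)

namespace Helper35.LIM

/-- the circle -/
abbrev Tor := AddCircle (1 : ℝ)

/-- for some `ε > 0` and infinitely many `K` some `K ^ (1 - ε)` arcs of length `2 ^ (-K)` have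
measure at least `ε` -/
def FewArcs (μ : Measure Tor) : Prop :=
  ∃ ε : ℝ, 0 < ε ∧ ∃ᶠ K : ℕ in atTop, ∃ S : Finset ℕ, (S.card : ℝ) ≤ (K : ℝ) ^ (1 - ε) ∧
    ε ≤ μ.real (⋃ i ∈ S, arc K i)

/-- for some `ε > 0` and infinitely many `K` the points within `2 ^ (-K)` of some finite set `Z` with
`2 Z = Z = 3 Z` and at most `K ^ (1 - ε)` elements have measure at least `ε` -/
def Fast (μ : Measure Tor) : Prop :=
  ∃ ε : ℝ, 0 < ε ∧ ∃ᶠ K : ℕ in atTop, ∃ Z : Set Tor, Z.Finite ∧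
    (fun z : Tor => (2 : ℕ) • z) '' Z = Z ∧ (fun z : Tor => (3 : ℕ) • z) '' Z = Z ∧
    (Z.ncard : ℝ) ≤ (K : ℝ) ^ (1 - ε) ∧ ε ≤ μ.real {x | ∃ z ∈ Z, ‖x - z‖ ≤ 1 / 2 ^ K}

/-- the Fourier coefficient of the uniform measure on the orbit of `r`, when `2 ^ i r = r = 3 ^ j r` -/
noncomputable def orbFt (r : Tor) (i j : ℕ) (n : ℤ) : ℂ :=
  (1 / ((i : ℂ) * j)) * ∑ a ∈ range i, ∑ b ∈ range j, (fourier n ((2 ^ a * 3 ^ b : ℕ) • r) : ℂ)

/-- the coefficients `c n` are limits of Fourier coefficients of uniform measures on finite orbits -/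
def OrbitLimit (c : ℤ → ℂ) : Prop :=
  ∀ (N : ℕ) (δ : ℝ), 0 < δ → ∃ (r : Tor) (i j : ℕ), 0 < i ∧ 0 < j ∧ (2 ^ i : ℕ) • r = r ∧
    (3 ^ j : ℕ) • r = r ∧ ∀ n : ℤ, |n| ≤ N → ‖orbFt r i j n - c n‖ ≤ δ

end Helper35.LIM
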