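import Pool.Agent.Helper35.LIM.Per
import Pool.Agent.Helper28.LIM.A

/-!
LIM: few arcs give fast approximation by finite invariant sets
-/

set_option autoImplicit false

open MeasureTheory Finset Filter Topology
open Helper75.RE (arc idx mem_arc_iff mem_biUnion_arc measurableSet_arcs idx_lt)
open Helper58.FH (norm_coe_le)

namespace Helper35.LIM

/-- two points of the same arc -/
theorem dist_of_idx {K : ℕ} {x y : Tor} (h : idx K x = idx K y) : ‖x - y‖ ≤ 1 / 2 ^ K := by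
  have hx : x ∈ arc K (idx K x) := by
    rw [mem_arc_iff, Nat.mod_eq_of_lt (idx_lt K x)]
  have hy : y ∈ arc K (idx K x) := by
    rw [mem_arc_iff, ← h, Nat.mod_eq_of_lt (idx_lt K x)]
  obtain ⟨s, ⟨hs1, hs2⟩, rfl⟩ := hx
  obtain ⟨t, ⟨ht1, ht2⟩, rfl⟩ := hy
  show ‖((s : ℝ) : Tor) - ((t : ℝ) : Tor)‖ ≤ 1 / 2 ^ K
  rw [← AddCircle.coe_sub]
  refine (norm_coe_le _).trans ?_
  have e : ((idx K ((s : ℝ) : Tor) : ℝ) + 1) / 2 ^ K = (idx K ((s : ℝ) : Tor) : ℝ) / 2 ^ K + 1 / 2 ^ K := by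
    ring
  simp only at hs1 hs2 ht1 ht2
  rw [e] at hs2 ht2
  rw [abs_le]
  constructor <;> linarith

/-- a point of an arc is near the left end -/
theorem dist_left {K i : ℕ} {x : Tor} (h : x ∈ arc K i) : ‖x - (((i : ℝ) / 2 ^ K : ℝ) : Tor)‖ ≤ 1 / 2 ^ K := by
  obtain ⟨s, ⟨hs1, hs2⟩, rfl⟩ := h
  show ‖((s : ℝ) : Tor) - (((i : ℝ) / 2 ^ K : ℝ) : Tor)‖ ≤ 1 / 2 ^ K
  rw [← AddCircle.coe_sub]
  refine (norm_coe_le _).trans ?_
  have e : ((i : ℝ) + 1) / 2 ^ K = (i : ℝ) / 2 ^ K + 1 / 2 ^ K := by ring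
  rw [e] at hs2
  rw [abs_le]
  constructor
  · have : (0 : ℝ) < 1 / 2 ^ K := by positivity
    linarith
  · linarith

theorem norm_nsmul_le' (n : ℕ) (y : Tor) : ‖n • y‖ ≤ n * ‖y‖ := norm_nsmul_le

/-- many good points in rows, columns and the far corner -/
theorem rows (G : Finset (ℕ × ℕ)) (L P : ℕ) (hG : ∀ s ∈ G, s.1 < L ∧ s.2 < L) (ε : ℝ) (hε : 0 < ε)
    (hc : ε / 2 * (L : ℝ) ^ 2 ≤ G.card) (hP : 32 * (P : ℝ) ≤ ε * L) (hL : 0 < L) :
    ∃ a0 b0 : ℕ, a0 < L ∧ b0 < L ∧ ε / 8 * L ≤ ((G.filter fun s => s.2 = b0).card : ℝ) ∧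
      ε / 8 * L ≤ ((G.filter fun s => s.1 = a0).card : ℝ) ∧
      ε / 8 * (L : ℝ) ^ 2 ≤ ((G.filter fun s => a0 + 2 * P ≤ s.1 ∧ b0 + 2 * P ≤ s.2).card : ℝ) := by
  classical
  have hLr : (0 : ℝ) < L := by exact_mod_cast hL
  have gen : ∀ π : ℕ × ℕ → ℕ, (∀ s ∈ G, π s < L) → (∀ c, ((G.filter fun s => π s = c).card : ℝ) ≤ L) →
      ∃ c0, c0 < L ∧ ε / 8 * L ≤ ((G.filter fun s => π s = c0).card : ℝ) ∧
        ((G.filter fun s => π s < c0 + 2 * P).card : ℝ) ≤ 3 / 16 * ε * (L : ℝ) ^ 2 := by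
    intro π hπ hπ2
    have hsum : ∀ c, ((G.filter fun s => π s < c).card : ℝ) =
        ∑ d ∈ range c, ((G.filter fun s => π s = d).card : ℝ) := by
      intro c
      rw [Finset.card_eq_sum_card_fiberwise (f := π) (t := range c)]
      · push_cast
        refine Finset.sum_congr rfl fun d hd => ?_
        rw [Finset.filter_filter]
        congr 2
        refine Finset.filter_congr fun s _ => ?_
        rw [Finset.mem_range] at hd
        constructor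
        · exact fun h => h.2
        · intro h
          exact ⟨by omega, h⟩
      · intro s hs
        rw [Finset.mem_coe, Finset.mem_filter] at hs
        rw [Finset.mem_coe, Finset.mem_range]
        exact hs.2
    have hex : ∃ c, c < L ∧ ε / 8 * L ≤ ((G.filter fun s => π s = c).card : ℝ) := by
      by_contra hcon
      push Not at hcon
      have h1 : ((G.filter fun s => π s < L).card : ℝ) ≤ ε / 8 * (L : ℝ) ^ 2 := by
        rw [hsum]
        calc ∑ d ∈ range L, ((G.filter fun s => π s = d).card : ℝ) ≤ ∑ d ∈ range L, ε / 8 * L :=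
              Finset.sum_le_sum fun d hd => (hcon d (Finset.mem_range.1 hd)).le
          _ = ε / 8 * (L : ℝ) ^ 2 := by
            rw [Finset.sum_const, Finset.card_range, nsmul_eq_mul]
            ring
      rw [Finset.filter_true_of_mem hπ] at h1
      have : 0 < ε * (L : ℝ) ^ 2 := by positivity
      linarith
    obtain ⟨c0, ⟨h1, h2⟩, h3⟩ : ∃ c0, (c0 < L ∧ ε / 8 * L ≤ ((G.filter fun s => π s = c0).card : ℝ)) ∧
        ∀ c, c < c0 → ¬ (c < L ∧ ε / 8 * L ≤ ((G.filter fun s => π s = c).card : ℝ)) :=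
      ⟨Nat.find hex, Nat.find_spec hex, fun c hc => Nat.find_min hex hc⟩
    refine ⟨c0, h1, h2, ?_⟩
    rw [hsum, Finset.sum_range_add]
    have h4 : ∑ d ∈ range c0, ((G.filter fun s => π s = d).card : ℝ) ≤ ε / 8 * (L : ℝ) ^ 2 := by
      calc ∑ d ∈ range c0, ((G.filter fun s => π s = d).card : ℝ) ≤ ∑ d ∈ range c0, ε / 8 * L := by
            refine Finset.sum_le_sum fun d hd => ?_
            rw [Finset.mem_range] at hd
            have := h3 d hd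
            push Not at this
            exact (this (by omega)).le
        _ = c0 * (ε / 8 * L) := by rw [Finset.sum_const, Finset.card_range, nsmul_eq_mul]
        _ ≤ L * (ε / 8 * L) := by
          have : (c0 : ℝ) ≤ L := by exact_mod_cast h1.le
          gcongr
        _ = ε / 8 * (L : ℝ) ^ 2 := by ring
    have h5 : ∑ d ∈ range (2 * P), ((G.filter fun s => π s = c0 + d).card : ℝ) ≤ 2 * P * L := by
      calc ∑ d ∈ range (2 * P), ((G.filter fun s => π s = c0 + d).card : ℝ)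
          ≤ ∑ d ∈ range (2 * P), (L : ℝ) := Finset.sum_le_sum fun d _ => hπ2 _
        _ = 2 * P * L := by
          rw [Finset.sum_const, Finset.card_range, nsmul_eq_mul]
          push_cast
          ring
    have h6 : 2 * (P : ℝ) * L ≤ ε / 16 * (L : ℝ) ^ 2 := by nlinarith
    linarith
  obtain ⟨b0, hb0, hb1, hb2⟩ := gen Prod.snd (fun s hs => (hG s hs).2) (by
    intro c
    have : (G.filter fun s => s.2 = c).card ≤ (range L).card := by
      refine Finset.card_le_card_of_injOn Prod.fst ?_ ?_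
      · intro s hs
        rw [Finset.mem_coe, Finset.mem_filter] at hs
        exact Finset.mem_coe.2 (Finset.mem_range.2 (hG s hs.1).1)
      · intro s hs t ht h
        rw [Finset.mem_coe, Finset.mem_filter] at hs ht
        exact Prod.ext h (hs.2.trans ht.2.symm)
    rw [Finset.card_range] at this
    exact_mod_cast this)
  obtain ⟨a0, ha0, ha1, ha2⟩ := gen Prod.fst (fun s hs => (hG s hs).1) (by
    intro c
    have : (G.filter fun s => s.1 = c).card ≤ (range L).card := by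
      refine Finset.card_le_card_of_injOn Prod.snd ?_ ?_
      · intro s hs
        rw [Finset.mem_coe, Finset.mem_filter] at hs
        exact Finset.mem_coe.2 (Finset.mem_range.2 (hG s hs.1).2)
      · intro s hs t ht h
        rw [Finset.mem_coe, Finset.mem_filter] at hs ht
        exact Prod.ext (hs.2.trans ht.2.symm) h
    rw [Finset.card_range] at this
    exact_mod_cast this)
  refine ⟨a0, b0, ha0, hb0, hb1, ha1, ?_⟩
  have hsub : G ⊆ (G.filter fun s => a0 + 2 * P ≤ s.1 ∧ b0 + 2 * P ≤ s.2) ∪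
      ((G.filter fun s => s.1 < a0 + 2 * P) ∪ (G.filter fun s => s.2 < b0 + 2 * P)) := by
    intro s hs
    simp only [Finset.mem_union, Finset.mem_filter]
    rcases lt_or_ge s.1 (a0 + 2 * P) with h | h
    · exact Or.inr (Or.inl ⟨hs, h⟩)
    rcases lt_or_ge s.2 (b0 + 2 * P) with h' | h'
    · exact Or.inr (Or.inr ⟨hs, h'⟩)
    exact Or.inl ⟨hs, h, h'⟩
  have hcard : (G.card : ℝ) ≤ ((G.filter fun s => a0 + 2 * P ≤ s.1 ∧ b0 + 2 * P ≤ s.2).card : ℝ) +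
      (((G.filter fun s => s.1 < a0 + 2 * P).card : ℝ) + ((G.filter fun s => s.2 < b0 + 2 * P).card : ℝ)) := by
    have := (Finset.card_le_card hsub).trans ((Finset.card_union_le _ _).trans
      (Nat.add_le_add_left (Finset.card_union_le _ _) _))
    exact_mod_cast this
  linarith

/-- preservation under powers -/
theorem mp_pow {μ : Measure Tor} {m : ℕ} (h : MeasurePreserving (fun x : Tor => m • x) μ μ) (a : ℕ) :
    MeasurePreserving (fun x : Tor => (m ^ a : ℕ) • x) μ μ := by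
  induction a with
  | zero =>
    have : (fun x : Tor => (m ^ 0 : ℕ) • x) = id := by
      funext x
      simp
    rw [this]
    exact MeasurePreserving.id μ
  | succ a ih =>
    have : (fun x : Tor => (m ^ (a + 1) : ℕ) • x) = (fun x : Tor => m • x) ∘
        (fun x : Tor => (m ^ a : ℕ) • x) := by
      funext x
      show (m ^ (a + 1) : ℕ) • x = m • ((m ^ a : ℕ) • x)
      rw [pow_succ', mul_smul]
    rw [this]
    exact h.comp ih

theorem mp_box {μ : Measure Tor} (h2 : MeasurePreserving (fun x : Tor => (2 : ℕ) • x) μ μ)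
    (h3 : MeasurePreserving (fun x : Tor => (3 : ℕ) • x) μ μ) (a b : ℕ) :
    MeasurePreserving (fun x : Tor => (2 ^ a * 3 ^ b : ℕ) • x) μ μ := by
  have : (fun x : Tor => (2 ^ a * 3 ^ b : ℕ) • x) = (fun x : Tor => (2 ^ a : ℕ) • x) ∘
      (fun x : Tor => (3 ^ b : ℕ) • x) := by
    funext x
    show (2 ^ a * 3 ^ b : ℕ) • x = (2 ^ a : ℕ) • ((3 ^ b : ℕ) • x)
    rw [mul_smul]
  rw [this]
  exact (mp_pow h2 a).comp (mp_pow h3 b)

/-- many points visit `A` often -/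
theorem good_mass {μ : Measure Tor} [IsProbabilityMeasure μ]
    (h2 : MeasurePreserving (fun x : Tor => (2 : ℕ) • x) μ μ)
    (h3 : MeasurePreserving (fun x : Tor => (3 : ℕ) • x) μ μ) {A : Set Tor} (hA : MeasurableSet A)
    {L : ℕ} (hL : 0 < L) {ε : ℝ} (hε : 0 < ε) (h : ε ≤ μ.real A) :
    ε / 2 ≤ μ.real {x | ε / 2 * (L : ℝ) ^ 2 ≤ (V A L x : ℝ)} := by
  classical
  have hLr : (0 : ℝ) < L := by exact_mod_cast hL
  have hV : ∀ x, (V A L x : ℝ) = ∑ a ∈ range L, ∑ b ∈ range L,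
      ((fun x : Tor => (2 ^ a * 3 ^ b : ℕ) • x) ⁻¹' A).indicator (fun _ => (1 : ℝ)) x := by
    intro x
    unfold V
    push_cast
    refine Finset.sum_congr rfl fun a _ => Finset.sum_congr rfl fun b _ => ?_
    by_cases hx : (2 ^ a * 3 ^ b : ℕ) • x ∈ A
    · rw [if_pos hx, Set.indicator_of_mem (by exact hx)]
    · rw [if_neg hx, Set.indicator_of_notMem (by exact hx)]
  have hm : ∀ a b : ℕ, MeasurableSet ((fun x : Tor => (2 ^ a * 3 ^ b : ℕ) • x) ⁻¹' A) := fun a b =>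
    (mp_box h2 h3 a b).measurable hA
  have hi : ∀ a b : ℕ, Integrable (((fun x : Tor => (2 ^ a * 3 ^ b : ℕ) • x) ⁻¹' A).indicator
      (fun _ => (1 : ℝ))) μ := fun a b => (integrable_const 1).indicator (hm a b)
  have hVm : Measurable (fun x => (V A L x : ℝ)) := by
    have : (fun x => (V A L x : ℝ)) = fun x => ∑ a ∈ range L, ∑ b ∈ range L,
      ((fun x : Tor => (2 ^ a * 3 ^ b : ℕ) • x) ⁻¹' A).indicator (fun _ => (1 : ℝ)) x := by
      funext x
      exact hV x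
    rw [this]
    refine Finset.measurable_sum _ fun a _ => Finset.measurable_sum _ fun b _ => ?_
    exact measurable_const.indicator (hm a b)
  have hint : ∫ x, (V A L x : ℝ) ∂μ = (L : ℝ) ^ 2 * μ.real A := by
    simp only [hV]
    rw [integral_finsetSum _ fun a _ => integrable_finsetSum _ fun b _ => hi a b]
    have : ∀ a, ∫ x, ∑ b ∈ range L, ((fun x : Tor => (2 ^ a * 3 ^ b : ℕ) • x) ⁻¹' A).indicator
        (fun _ => (1 : ℝ)) x ∂μ = L * μ.real A := by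
      intro a
      rw [integral_finsetSum _ fun b _ => hi a b]
      have : ∀ b, ∫ x, ((fun x : Tor => (2 ^ a * 3 ^ b : ℕ) • x) ⁻¹' A).indicator
          (fun _ => (1 : ℝ)) x ∂μ = μ.real A := by
        intro b
        rw [integral_indicator_const _ (hm a b), smul_eq_mul, mul_one]
        unfold Measure.real
        rw [(mp_box h2 h3 a b).measure_preimage hA.nullMeasurableSet]
      simp only [this, Finset.sum_const, Finset.card_range, nsmul_eq_mul]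
    simp only [this, Finset.sum_const, Finset.card_range, nsmul_eq_mul]
    ring
  obtain ⟨B, hB⟩ : ∃ B : Set Tor, B = {x | ε / 2 * (L : ℝ) ^ 2 ≤ (V A L x : ℝ)} := ⟨_, rfl⟩
  have hBm : MeasurableSet B := by
    rw [hB]
    exact measurableSet_le measurable_const hVm
  rw [← hB]
  have hle : ∀ x, (V A L x : ℝ) ≤ ε / 2 * (L : ℝ) ^ 2 + (L : ℝ) ^ 2 * B.indicator (fun _ => (1 : ℝ)) x := by
    intro x
    by_cases hx : x ∈ B
    · rw [Set.indicator_of_mem hx, mul_one]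
      have h1 : (V A L x : ℝ) ≤ (L : ℝ) ^ 2 := by exact_mod_cast V_le A L x
      have : 0 < ε / 2 * (L : ℝ) ^ 2 := by positivity
      linarith
    · rw [Set.indicator_of_notMem hx, mul_zero, add_zero]
      rw [hB, Set.mem_ofPred_eq, not_le] at hx
      exact hx.le
  have hVi : Integrable (fun x => (V A L x : ℝ)) μ := by
    have : (fun x => (V A L x : ℝ)) = fun x => ∑ a ∈ range L, ∑ b ∈ range L,
      ((fun x : Tor => (2 ^ a * 3 ^ b : ℕ) • x) ⁻¹' A).indicator (fun _ => (1 : ℝ)) x := by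
      funext x
      exact hV x
    rw [this]
    exact integrable_finsetSum _ fun a _ => integrable_finsetSum _ fun b _ => hi a b
  have hBi : Integrable (B.indicator (fun _ => (1 : ℝ))) μ := (integrable_const 1).indicator hBm
  have hfin : (L : ℝ) ^ 2 * μ.real A ≤ ε / 2 * (L : ℝ) ^ 2 + (L : ℝ) ^ 2 * μ.real B := by
    rw [← hint]
    refine (integral_mono hVi (g := fun x => ε / 2 * (L : ℝ) ^ 2 + (L : ℝ) ^ 2 *
      B.indicator (fun _ => (1 : ℝ)) x) ((integrable_const _).add (hBi.const_mul _)) hle).trans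
      (le_of_eq ?_)
    rw [integral_add (integrable_const _) (hBi.const_mul _), integral_const, integral_const_mul,
      integral_indicator_const _ hBm]
    simp
  have hL2 : (0 : ℝ) < (L : ℝ) ^ 2 := by positivity
  have h9 : (L : ℝ) ^ 2 * (ε / 2) ≤ (L : ℝ) ^ 2 * μ.real B := by
    have : (L : ℝ) ^ 2 * ε ≤ (L : ℝ) ^ 2 * μ.real A := by gcongr
    linarith
  exact le_of_mul_le_mul_left h9 hL2

/-- separation of points of small periods -/
theorem Per_sep {P : ℕ} {z w : Tor} (hz : z ∈ Per P) (hw : w ∈ Per P) (h : z ≠ w) :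
    1 / 4 ^ P < ‖z - w‖ := by
  have key : ∀ y ∈ Per P, ∃ n : ℕ, 1 ≤ n ∧ n + 1 ≤ 2 ^ P ∧ n • y = 0 := by
    rintro y ⟨i, j, hi, hiP, _, _, h2, _⟩
    have h1 : 2 ^ 1 ≤ 2 ^ i := Nat.pow_le_pow_right (by norm_num) hi
    have h3 : 2 ^ i ≤ 2 ^ P := Nat.pow_le_pow_right (by norm_num) hiP
    refine ⟨2 ^ i - 1, by omega, by omega, ?_⟩
    have e : (2 ^ i : ℕ) = (2 ^ i - 1) + 1 := by omega
    have h4 : ((2 ^ i - 1 : ℕ) + 1) • y = y := by rw [← e]; exact h2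
    rw [add_smul, one_smul] at h4
    exact add_eq_right.1 h4
  obtain ⟨n, hn1, hn2, hn3⟩ := key z hz
  obtain ⟨m, hm1, hm2, hm3⟩ := key w hw
  refine lt_of_lt_of_le ?_ (torsion_sep n m hn1 hm1 z w hn3 hm3 h)
  have hnr : (0 : ℝ) < n := by exact_mod_cast hn1
  have hmr : (0 : ℝ) < m := by exact_mod_cast hm1
  apply one_div_lt_one_div_of_lt (by positivity)
  have h1 : (n : ℝ) < 2 ^ P := by exact_mod_cast hn2
  have h2 : (m : ℝ) < 2 ^ P := by exact_mod_cast hm2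
  calc (n : ℝ) * m < 2 ^ P * 2 ^ P := by gcongr
    _ = 4 ^ P := by rw [← mul_pow]; norm_num

/-- the points of small periods near the arcs -/
def near (S : Finset ℕ) (K : ℕ) (η : ℝ) : Set Tor :=
  {z | ∃ i ∈ S, ‖z - (((i : ℝ) / 2 ^ K : ℝ) : Tor)‖ ≤ 2 * η}

theorem exists_W (P K : ℕ) (S : Finset ℕ) (η : ℝ) (h : 4 * η ≤ 1 / 4 ^ P) :
    ∃ W : Finset Tor, (∀ z, z ∈ W ↔ z ∈ Per P ∧ z ∈ near S K η) ∧ W.card ≤ S.card := by
  classical
  refine ⟨(Per_finite P).toFinset.filter (fun z => z ∈ near S K η), fun z => ?_, ?_⟩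
  · rw [Finset.mem_filter, Set.Finite.mem_toFinset]
  · refine Finset.card_le_card_of_injOn (fun z => if h : z ∈ near S K η then Classical.choose h else 0)
      ?_ ?_
    · intro z hz
      rw [Finset.mem_coe, Finset.mem_filter] at hz
      simp only [dif_pos hz.2]
      exact (Classical.choose_spec hz.2).1
    · intro z hz w hw hzw
      rw [Finset.mem_coe, Finset.mem_filter, Set.Finite.mem_toFinset] at hz hw
      simp only [dif_pos hz.2, dif_pos hw.2] at hzw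
      by_contra hne
      have h1 := (Classical.choose_spec hz.2).2
      have h2 := (Classical.choose_spec hw.2).2
      rw [← hzw] at h2
      have h3 := Per_sep hz.1 hw.1 hne
      obtain ⟨c, hc⟩ : ∃ c : Tor, c = ((((Classical.choose hz.2 : ℕ) : ℝ) / 2 ^ K : ℝ) : Tor) := ⟨_, rfl⟩
      rw [← hc] at h1 h2
      have h4 : ‖z - w‖ ≤ ‖z - c‖ + ‖w - c‖ := by
        have e : z - w = (z - c) - (w - c) := by abel
        rw [e]
        exact norm_sub_le _ _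
      linarith

open Classical in
theorem V_eq_card (W : Set Tor) (M : ℕ) (z : Tor) :
    V W M z = ((range M ×ˢ range M).filter fun s => (2 ^ s.1 * 3 ^ s.2 : ℕ) • z ∈ W).card := by
  unfold V
  rw [Finset.card_filter, Finset.sum_product]

/-- a close pair in a row or a column -/
theorem pair_gen {L P K : ℕ} (hP : 0 < P) (S G : Finset ℕ) (hG : ∀ a ∈ G, a < L) (f : ℕ → Tor)
    (hf : ∀ a ∈ G, f a ∈ ⋃ i ∈ S, arc K i) (h : S.card * (L / P + 1) < G.card) :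
    ∃ a i : ℕ, 1 ≤ i ∧ i ≤ P ∧ a + i < L ∧ ‖f (a + i) - f a‖ ≤ 1 / 2 ^ K := by
  classical
  obtain ⟨a, i, hi, hiP, ha, hai, he⟩ := close_pair hP G hG (fun a => idx K (f a))
    (S.image fun i => i % 2 ^ K) (fun a ha => (mem_biUnion_arc K S (f a)).1 (hf a ha))
    (lt_of_le_of_lt (Nat.mul_le_mul_right _ Finset.card_image_le) h)
  exact ⟨a, i, hi, hiP, hG _ hai, dist_of_idx he.symm⟩

theorem trap {K L P : ℕ} {S : Finset ℕ} {ε : ℝ} (hε : 0 < ε) (hL : 0 < L) (hP : 0 < P)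
    (h32 : 32 * (P : ℝ) ≤ ε * L) (hS : (S.card : ℝ) * ((L / P + 1 : ℕ) : ℝ) < ε / 8 * L)
    (hK : 6 * L + 1 ≤ K) (x : Tor)
    (hx : ε / 2 * (L : ℝ) ^ 2 ≤ (V (⋃ i ∈ S, arc K i) L x : ℝ)) :
    ∃ r : Tor, ∃ a0 b0 : ℕ, a0 < L ∧ b0 < L ∧ ‖x - r‖ ≤ 1 / 2 ^ K ∧
      (2 ^ (a0 + 2 * P) * 3 ^ (b0 + 2 * P) : ℕ) • r ∈ Per P ∧
      ε / 8 * (L : ℝ) ^ 2 ≤ (V (near S K (6 ^ L / 2 ^ K)) L
        ((2 ^ (a0 + 2 * P) * 3 ^ (b0 + 2 * P) : ℕ) • r) : ℝ) := by
  classical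
  obtain ⟨A, hA⟩ : ∃ A : Set Tor, A = ⋃ i ∈ S, arc K i := ⟨_, rfl⟩
  obtain ⟨G, hG⟩ : ∃ G : Finset (ℕ × ℕ), G = (range L ×ˢ range L).filter
    fun s => (2 ^ s.1 * 3 ^ s.2 : ℕ) • x ∈ A := ⟨_, rfl⟩
  have hmem : ∀ s ∈ G, s.1 < L ∧ s.2 < L ∧ (2 ^ s.1 * 3 ^ s.2 : ℕ) • x ∈ A := by
    intro s hs
    rw [hG, Finset.mem_filter, Finset.mem_product, Finset.mem_range, Finset.mem_range] at hs
    exact ⟨hs.1.1, hs.1.2, hs.2⟩
  have hGc : ε / 2 * (L : ℝ) ^ 2 ≤ (G.card : ℝ) := by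
    rw [← hA, V_eq_card] at hx
    rw [hG]
    exact hx
  obtain ⟨a0, b0, ha0, hb0, hrow, hcol, hfar⟩ := rows G L P (fun s hs =>
    ⟨(hmem s hs).1, (hmem s hs).2.1⟩) ε hε hGc h32 hL
  -- the row
  obtain ⟨a1, i, hi, hiP, haL, hd1⟩ : ∃ a i : ℕ, 1 ≤ i ∧ i ≤ P ∧ a + i < L ∧
      ‖(2 ^ (a + i) * 3 ^ b0 : ℕ) • x - (2 ^ a * 3 ^ b0 : ℕ) • x‖ ≤ 1 / 2 ^ K := by
    refine pair_gen hP S ((G.filter fun s => s.2 = b0).image Prod.fst) ?_
      (fun a => (2 ^ a * 3 ^ b0 : ℕ) • x) ?_ ?_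
    · intro a ha
      rw [Finset.mem_image] at ha
      obtain ⟨s, hs, rfl⟩ := ha
      exact (hmem s (Finset.mem_filter.1 hs).1).1
    · intro a ha
      rw [Finset.mem_image] at ha
      obtain ⟨s, hs, rfl⟩ := ha
      rw [Finset.mem_filter] at hs
      have := (hmem s hs.1).2.2
      rw [hs.2, hA] at this
      exact this
    · rw [Finset.card_image_of_injOn]
      · exact_mod_cast hS.trans_le hrow
      · intro s hs t ht h
        rw [Finset.mem_coe, Finset.mem_filter] at hs ht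
        exact Prod.ext h (hs.2.trans ht.2.symm)
  obtain ⟨b1, j, hj, hjP, hbL, hd2⟩ : ∃ b j : ℕ, 1 ≤ j ∧ j ≤ P ∧ b + j < L ∧
      ‖(2 ^ a0 * 3 ^ (b + j) : ℕ) • x - (2 ^ a0 * 3 ^ b : ℕ) • x‖ ≤ 1 / 2 ^ K := by
    refine pair_gen hP S ((G.filter fun s => s.1 = a0).image Prod.snd) ?_
      (fun b => (2 ^ a0 * 3 ^ b : ℕ) • x) ?_ ?_
    · intro a ha
      rw [Finset.mem_image] at ha
      obtain ⟨s, hs, rfl⟩ := ha
      exact (hmem s (Finset.mem_filter.1 hs).1).2.1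
    · intro a ha
      rw [Finset.mem_image] at ha
      obtain ⟨s, hs, rfl⟩ := ha
      rw [Finset.mem_filter] at hs
      have := (hmem s hs.1).2.2
      rw [hs.2, hA] at this
      exact this
    · rw [Finset.card_image_of_injOn]
      · exact_mod_cast hS.trans_le hcol
      · intro s hs t ht h
        rw [Finset.mem_coe, Finset.mem_filter] at hs ht
        exact Prod.ext (hs.2.trans ht.2.symm) h
  -- torsion points
  have hp2 : 2 ^ 1 ≤ 2 ^ i := Nat.pow_le_pow_right (by norm_num) hi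
  have hp3 : 3 ^ 1 ≤ 3 ^ j := Nat.pow_le_pow_right (by norm_num) hj
  obtain ⟨n1, hn1⟩ : ∃ n, n = 2 ^ a1 * 3 ^ b0 * (2 ^ i - 1) := ⟨_, rfl⟩
  obtain ⟨n2, hn2⟩ : ∃ n, n = 2 ^ a0 * 3 ^ b1 * (3 ^ j - 1) := ⟨_, rfl⟩
  have e1 : n1 + 2 ^ a1 * 3 ^ b0 = 2 ^ (a1 + i) * 3 ^ b0 := by
    rw [hn1]
    obtain ⟨u, hu⟩ : ∃ u, 2 ^ i = u + 1 := ⟨2 ^ i - 1, by omega⟩
    rw [pow_add, hu, Nat.add_sub_cancel]
    ring
  have e2 : n2 + 2 ^ a0 * 3 ^ b1 = 2 ^ a0 * 3 ^ (b1 + j) := by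
    rw [hn2]
    obtain ⟨u, hu⟩ : ∃ u, 3 ^ j = u + 1 := ⟨3 ^ j - 1, by omega⟩
    rw [pow_add, hu, Nat.add_sub_cancel]
    ring
  have h6 : (2 : ℕ) ^ L * 3 ^ L = 6 ^ L := by
    rw [← mul_pow]
    norm_num
  have hl1 : n1 < 6 ^ L := by
    have h1 : 0 < 2 ^ a1 * 3 ^ b0 := by positivity
    have h2 : 2 ^ (a1 + i) * 3 ^ b0 ≤ 2 ^ L * 3 ^ L :=
      Nat.mul_le_mul (Nat.pow_le_pow_right (by norm_num) haL.le)
        (Nat.pow_le_pow_right (by norm_num) hb0.le)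
    omega
  have hl2 : n2 < 6 ^ L := by
    have h1 : 0 < 2 ^ a0 * 3 ^ b1 := by positivity
    have h2 : 2 ^ a0 * 3 ^ (b1 + j) ≤ 2 ^ L * 3 ^ L :=
      Nat.mul_le_mul (Nat.pow_le_pow_right (by norm_num) ha0.le)
        (Nat.pow_le_pow_right (by norm_num) hbL.le)
    omega
  have hn1pos : 1 ≤ n1 := by
    rw [hn1]
    have h1 : 0 < 2 ^ i - 1 := by omega
    exact Nat.succ_le_of_lt (by positivity)
  have hn2pos : 1 ≤ n2 := by
    rw [hn2]
    have h1 : 0 < 3 ^ j - 1 := by omega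
    exact Nat.succ_le_of_lt (by positivity)
  have ex1 : ‖n1 • x‖ ≤ 1 / 2 ^ K := by
    have : n1 • x = (2 ^ (a1 + i) * 3 ^ b0 : ℕ) • x - (2 ^ a1 * 3 ^ b0 : ℕ) • x := by
      rw [← e1, add_smul, add_sub_cancel_right]
    rw [this]
    exact hd1
  have ex2 : ‖n2 • x‖ ≤ 1 / 2 ^ K := by
    have : n2 • x = (2 ^ a0 * 3 ^ (b1 + j) : ℕ) • x - (2 ^ a0 * 3 ^ b1 : ℕ) • x := by
      rw [← e2, add_smul, add_sub_cancel_right]
    rw [this]
    exact hd2
  obtain ⟨r, hr, hxr⟩ := near_torsion n1 hn1pos x _ ex1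
  obtain ⟨r', hr', hxr'⟩ := near_torsion n2 hn2pos x _ ex2
  have hn1r : (1 : ℝ) ≤ n1 := by exact_mod_cast hn1pos
  have hn2r : (1 : ℝ) ≤ n2 := by exact_mod_cast hn2pos
  have hK0 : (0 : ℝ) < 2 ^ K := by positivity
  have hxr1 : ‖x - r‖ ≤ 1 / 2 ^ K := hxr.trans (div_le_self (by positivity) hn1r)
  have hxr1' : ‖x - r'‖ ≤ 1 / 2 ^ K := hxr'.trans (div_le_self (by positivity) hn2r)
  have hrr : r = r' := by
    by_contra hne
    have h1 := torsion_sep n1 n2 hn1pos hn2pos r r' hr hr' hne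
    have h2 : ‖r - r'‖ ≤ 2 / 2 ^ K := by
      have e : r - r' = (x - r') - (x - r) := by abel
      rw [e]
      refine (norm_sub_le _ _).trans ?_
      have e3 : (2 : ℝ) / 2 ^ K = 1 / 2 ^ K + 1 / 2 ^ K := by ring
      rw [e3]
      exact add_le_add hxr1' hxr1
    have h3 : (1 : ℝ) / (n1 * n2) ≤ 2 / 2 ^ K := h1.trans h2
    rw [div_le_div_iff₀ (by positivity) hK0, one_mul] at h3
    have h4 : (n1 : ℝ) * n2 < 2 ^ (6 * L) := by
      have h5 : (n1 : ℝ) < 6 ^ L := by exact_mod_cast hl1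
      have h6 : (n2 : ℝ) < 6 ^ L := by exact_mod_cast hl2
      calc (n1 : ℝ) * n2 < 6 ^ L * 6 ^ L := by gcongr
        _ = 36 ^ L := by rw [← mul_pow]; norm_num
        _ ≤ 64 ^ L := pow_le_pow_left₀ (by norm_num) (by norm_num) _
        _ = 2 ^ (6 * L) := by rw [pow_mul]; norm_num
    have h5 : (2 : ℝ) ^ (6 * L + 1) ≤ 2 ^ K := pow_le_pow_right₀ (by norm_num) hK
    rw [pow_succ] at h5
    linarith
  rw [← hrr] at hr'
  rw [hn1] at hr
  rw [hn2] at hr'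
  obtain ⟨hs2, hs3⟩ := shift' r a1 b0 a0 b1 i j P hi hj hiP hjP hr hr'
  refine ⟨r, a0, b0, ha0, hb0, hxr1, ⟨i, j, hi, hiP, hj, hjP, hs2, hs3⟩, hfar.trans ?_⟩
  rw [V_eq_card]
  have hcard : (G.filter fun s => a0 + 2 * P ≤ s.1 ∧ b0 + 2 * P ≤ s.2).card ≤
      ((range L ×ˢ range L).filter fun s => (2 ^ s.1 * 3 ^ s.2 : ℕ) •
        ((2 ^ (a0 + 2 * P) * 3 ^ (b0 + 2 * P) : ℕ) • r) ∈ near S K (6 ^ L / 2 ^ K)).card := by
    refine Finset.card_le_card_of_injOn (fun s => (s.1 - (a0 + 2 * P), s.2 - (b0 + 2 * P))) ?_ ?_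
    · intro s hs
      rw [Finset.mem_coe, Finset.mem_filter] at hs
      obtain ⟨hsG, h1, h2⟩ := hs
      obtain ⟨hL1, hL2, hsA⟩ := hmem s hsG
      rw [Finset.mem_coe, Finset.mem_filter, Finset.mem_product, Finset.mem_range, Finset.mem_range]
      refine ⟨⟨?_, ?_⟩, ?_⟩
      · show s.1 - (a0 + 2 * P) < L
        omega
      · show s.2 - (b0 + 2 * P) < L
        omega
      · show (2 ^ (s.1 - (a0 + 2 * P)) * 3 ^ (s.2 - (b0 + 2 * P)) : ℕ) •
          ((2 ^ (a0 + 2 * P) * 3 ^ (b0 + 2 * P) : ℕ) • r) ∈ near S K (6 ^ L / 2 ^ K)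
        have e3 : 2 ^ (s.1 - (a0 + 2 * P)) * 3 ^ (s.2 - (b0 + 2 * P)) *
            (2 ^ (a0 + 2 * P) * 3 ^ (b0 + 2 * P)) = 2 ^ s.1 * 3 ^ s.2 := by
          calc 2 ^ (s.1 - (a0 + 2 * P)) * 3 ^ (s.2 - (b0 + 2 * P)) *
                (2 ^ (a0 + 2 * P) * 3 ^ (b0 + 2 * P))
              = (2 ^ (s.1 - (a0 + 2 * P)) * 2 ^ (a0 + 2 * P)) *
                (3 ^ (s.2 - (b0 + 2 * P)) * 3 ^ (b0 + 2 * P)) := by ring
            _ = _ := by rw [← pow_add, ← pow_add, Nat.sub_add_cancel h1, Nat.sub_add_cancel h2]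
        rw [← mul_smul, e3]
        rw [hA, Set.mem_iUnion₂] at hsA
        obtain ⟨c, hc, hsc⟩ := hsA
        refine ⟨c, hc, ?_⟩
        have h3 := dist_left hsc
        obtain ⟨w, hw⟩ : ∃ w : Tor, w = (((c : ℝ) / 2 ^ K : ℝ) : Tor) := ⟨_, rfl⟩
        rw [← hw] at h3 ⊢
        have e4 : (2 ^ s.1 * 3 ^ s.2 : ℕ) • r - w =
            ((2 ^ s.1 * 3 ^ s.2 : ℕ) • x - w) - (2 ^ s.1 * 3 ^ s.2 : ℕ) • (x - r) := by
          rw [smul_sub]
          abel
        rw [e4]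
        refine (norm_sub_le _ _).trans ?_
        have h4 : ‖(2 ^ s.1 * 3 ^ s.2 : ℕ) • (x - r)‖ ≤ 6 ^ L / 2 ^ K := by
          refine (norm_nsmul_le' _ _).trans ?_
          have h5 : 2 ^ s.1 * 3 ^ s.2 ≤ 6 ^ L := by
            rw [← h6]
            exact Nat.mul_le_mul (Nat.pow_le_pow_right (by norm_num) hL1.le)
              (Nat.pow_le_pow_right (by norm_num) hL2.le)
          have h5r : ((2 ^ s.1 * 3 ^ s.2 : ℕ) : ℝ) ≤ 6 ^ L := by exact_mod_cast h5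
          calc ((2 ^ s.1 * 3 ^ s.2 : ℕ) : ℝ) * ‖x - r‖ ≤ 6 ^ L * (1 / 2 ^ K) := by gcongr
            _ = 6 ^ L / 2 ^ K := by ring
        have h7 : (1 : ℝ) / 2 ^ K ≤ 6 ^ L / 2 ^ K := by
          have : (1 : ℝ) ≤ 6 ^ L := one_le_pow₀ (by norm_num)
          gcongr
        linarith
    · intro s hs t ht h
      rw [Finset.mem_coe, Finset.mem_filter] at hs ht
      have h1 : s.1 - (a0 + 2 * P) = t.1 - (a0 + 2 * P) := congrArg Prod.fst h
      have h2 : s.2 - (b0 + 2 * P) = t.2 - (b0 + 2 * P) := congrArg Prod.snd h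
      exact Prod.ext (by omega) (by omega)
  exact_mod_cast hcard

/-- parameters -/
theorem params (ε : ℝ) (hε : 0 < ε) (hε1 : ε ≤ 1) : ∀ᶠ K : ℕ in atTop, ∃ L P : ℕ, 0 < L ∧ 0 < P ∧
    P ≤ L ∧ 32 * (P : ℝ) ≤ ε * L ∧ 6 * L + 1 ≤ K ∧ 2 + 3 * L + 2 * P ≤ K ∧
    3 * (L + 2 * P) + K / 2 ≤ K ∧ ∀ s : ℕ, (s : ℝ) ≤ (K : ℝ) ^ (1 - ε) →
      (s : ℝ) * ((L / P + 1 : ℕ) : ℝ) < ε / 8 * L ∧
      (s : ℝ) / (ε / 32) ≤ ((K / 2 : ℕ) : ℝ) ^ (1 - ε / 2) := by
  obtain ⟨κ, hκ⟩ : ∃ κ : ℝ, κ = ε / 8192 := ⟨_, rfl⟩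
  have hκ0 : 0 < κ := by rw [hκ]; positivity
  have ev1 : ∀ᶠ K : ℕ in atTop, (K : ℝ) ^ (-(ε / 2)) ≤ κ := by
    have h1 : Tendsto (fun K : ℕ => (K : ℝ) ^ (-(ε / 2))) atTop (𝓝 0) :=
      (tendsto_rpow_neg_atTop (by positivity)).comp tendsto_natCast_atTop_atTop
    exact (h1.eventually (eventually_lt_nhds hκ0)).mono fun _ h => h.le
  have ev2 : ∀ᶠ K : ℕ in atTop, 1 / κ ≤ (K : ℝ) :=
    tendsto_natCast_atTop_atTop.eventually_ge_atTop _
  filter_upwards [ev1, ev2, eventually_ge_atTop 64] with K h1 h2 h3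
  have hKr : (64 : ℝ) ≤ K := by exact_mod_cast h3
  have hK0 : (0 : ℝ) < K := by linarith
  have hκK : 1 ≤ κ * K := by
    rw [div_le_iff₀ hκ0] at h2
    linarith
  obtain ⟨X, hX⟩ : ∃ X : ℝ, X = (K : ℝ) ^ (1 - ε / 2) := ⟨_, rfl⟩
  obtain ⟨Y, hY⟩ : ∃ Y : ℝ, Y = (K : ℝ) ^ (1 - ε) := ⟨_, rfl⟩
  have hX0 : 0 < X := by rw [hX]; exact Real.rpow_pos_of_pos hK0 _
  have hY0 : 0 < Y := by rw [hY]; exact Real.rpow_pos_of_pos hK0 _
  have hXK : X = K * (K : ℝ) ^ (-(ε / 2)) := by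
    rw [hX, sub_eq_add_neg, Real.rpow_add hK0, Real.rpow_one]
  have hYX : Y = X * (K : ℝ) ^ (-(ε / 2)) := by
    rw [hX, hY, ← Real.rpow_add hK0]
    congr 1
    ring
  have hXκ : X ≤ κ * K := by
    rw [hXK, mul_comm]
    gcongr
  have hYκ : Y ≤ κ * X := by
    rw [hYX, mul_comm]
    gcongr
  have hYK : Y * K = X * X := by
    rw [hYX]
    nth_rewrite 3 [hXK]
    ring
  obtain ⟨L, hL⟩ : ∃ L, L = K / 32 := ⟨_, rfl⟩
  obtain ⟨P, hP⟩ : ∃ P, P = ⌈X⌉₊ := ⟨_, rfl⟩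
  have hL1 : 1 ≤ L := by omega
  have hLK : 32 * L ≤ K := by omega
  have hKL : K ≤ 64 * L := by omega
  have hKLr : (K : ℝ) ≤ 64 * L := by exact_mod_cast hKL
  have hLKr : (L : ℝ) ≤ K := by exact_mod_cast (show L ≤ K by omega)
  have hP0 : 0 < P := by rw [hP]; exact Nat.ceil_pos.2 hX0
  have hPX : X ≤ P := by rw [hP]; exact Nat.le_ceil X
  have hPX' : (P : ℝ) ≤ X + 1 := by rw [hP]; exact (Nat.ceil_lt_add_one hX0.le).le
  have hP2 : (P : ℝ) ≤ 2 * (κ * K) := by linarith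
  have h32 : 32 * (P : ℝ) ≤ ε * L := by
    have : 32 * (P : ℝ) ≤ 4096 * κ * L := by
      calc 32 * (P : ℝ) ≤ 64 * κ * K := by linarith
        _ ≤ 64 * κ * (64 * L) := by gcongr
        _ = 4096 * κ * L := by ring
    have h5 : 4096 * κ * L ≤ ε * L := by
      rw [hκ]
      have : 0 ≤ ε * L := by positivity
      linarith
    exact this.trans h5
  have hLr : (1 : ℝ) ≤ L := by exact_mod_cast hL1
  have hPL32 : 32 * P ≤ L := by
    have : 32 * (P : ℝ) ≤ L := h32.trans (by nlinarith)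
    exact_mod_cast this
  refine ⟨L, P, by omega, hP0, by omega, h32, by omega, by omega, by omega, fun s hs => ?_⟩
  rw [← hY] at hs
  have hPr : (0 : ℝ) < P := by exact_mod_cast hP0
  constructor
  · have h5 : ((L / P : ℕ) : ℝ) ≤ K / X := by
      refine (Nat.cast_div_le).trans ?_
      exact div_le_div₀ hK0.le hLKr hX0 hPX
    have h6 : Y * (K / X) = X := by
      rw [← mul_div_assoc, hYK]
      field_simp
    have h7 : κ ≤ 1 := by rw [hκ]; linarith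
    have hYX1 : Y ≤ X := hYκ.trans (by nlinarith)
    have h8 : (s : ℝ) * ((L / P + 1 : ℕ) : ℝ) ≤ 2 * X := by
      push_cast
      calc (s : ℝ) * (((L / P : ℕ) : ℝ) + 1) ≤ Y * (K / X + 1) := by gcongr
        _ = X + Y := by rw [mul_add, h6, mul_one]
        _ ≤ 2 * X := by linarith
    have h9 : 2 * X ≤ 128 * κ * L := by
      calc 2 * X ≤ 2 * (κ * K) := by linarith
        _ ≤ 2 * (κ * (64 * L)) := by gcongr
        _ = 128 * κ * L := by ring
    have h10 : 128 * κ * L < ε / 8 * L := by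
      rw [hκ]
      have : 0 < ε * L := by positivity
      linarith
    linarith
  · have hK2 : (K : ℝ) / 4 ≤ ((K / 2 : ℕ) : ℝ) := by
      have : K ≤ 4 * (K / 2) := by omega
      have : (K : ℝ) ≤ 4 * ((K / 2 : ℕ) : ℝ) := by exact_mod_cast this
      linarith
    have h5 : X / 4 ≤ ((K / 2 : ℕ) : ℝ) ^ (1 - ε / 2) := by
      calc X / 4 ≤ X / (4 : ℝ) ^ (1 - ε / 2) := by
            apply div_le_div_of_nonneg_left hX0.le (Real.rpow_pos_of_pos (by norm_num) _)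
            calc (4 : ℝ) ^ (1 - ε / 2) ≤ (4 : ℝ) ^ (1 : ℝ) :=
                  Real.rpow_le_rpow_of_exponent_le (by norm_num) (by linarith)
              _ = 4 := Real.rpow_one 4
        _ = ((K : ℝ) / 4) ^ (1 - ε / 2) := by
          rw [hX, Real.div_rpow hK0.le (by norm_num)]
        _ ≤ _ := Real.rpow_le_rpow (by positivity) hK2 (by linarith)
    refine le_trans ?_ h5
    rw [div_le_div_iff₀ (by positivity) (by norm_num)]
    have h6 : (s : ℝ) * 4 ≤ 4 * (κ * X) := by linarith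
    have h7 : 4 * (κ * X) ≤ X * (ε / 32) := by
      rw [hκ]
      have : 0 ≤ ε * X := by positivity
      linarith
    linarith

/-- L1. -/
theorem fast_of_few {μ : Measure Tor} [IsProbabilityMeasure μ]
    (h2 : MeasurePreserving (fun x : Tor => (2 : ℕ) • x) μ μ)
    (h3 : MeasurePreserving (fun x : Tor => (3 : ℕ) • x) μ μ) (h : FewArcs μ) : Fast μ := by
  classical
  obtain ⟨ε, hε, hf⟩ := h
  have hε1 : ε ≤ 1 := by
    obtain ⟨K, S, _, hS⟩ := hf.exists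
    exact hS.trans measureReal_le_one
  refine ⟨ε / 2, by positivity, ?_⟩
  have hdiv : Tendsto (fun K : ℕ => K / 2) atTop atTop := Nat.tendsto_div_const_atTop (by norm_num)
  refine hdiv.frequently ((hf.and_eventually (params ε hε hε1)).mono ?_)
  rintro K ⟨⟨S, hSc, hSm⟩, L, P, hL, hP, hPL, h32, h6L, h3L, hK2, hpar⟩
  obtain ⟨hp1, hp2⟩ := hpar S.card hSc
  have hK0 : (0 : ℝ) < 2 ^ K := by positivity
  have h68 : ∀ n : ℕ, (6 : ℝ) ^ n ≤ 2 ^ (3 * n) := by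
    intro n
    rw [pow_mul]
    exact pow_le_pow_left₀ (by norm_num) (by norm_num) _
  obtain ⟨W, hW, hWc⟩ := exists_W P K S (6 ^ L / 2 ^ K) (by
    rw [le_div_iff₀ (by positivity), ← mul_div_assoc, div_mul_eq_mul_div, div_le_one hK0]
    calc (4 : ℝ) * 6 ^ L * 4 ^ P ≤ 4 * 2 ^ (3 * L) * 4 ^ P := by
          gcongr
          exact h68 L
      _ = 2 ^ (2 + 3 * L + 2 * P) := by
        rw [pow_add, pow_add, pow_mul 2 2 P]
        norm_num
      _ ≤ 2 ^ K := pow_le_pow_right₀ (by norm_num) h3L)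
  obtain ⟨Z, hZf, hZ2, hZ3, hZc, hZV⟩ := exists_Z P W (ε / 32) (by positivity)
  refine ⟨Z, hZf, hZ2, hZ3, ?_, ?_⟩
  · refine hZc.trans (le_trans ?_ hp2)
    gcongr
  obtain ⟨N, hN⟩ : ∃ N : Set Tor, N = {x | ∃ z ∈ Z, ‖x - z‖ ≤ 1 / 2 ^ (K / 2)} := ⟨_, rfl⟩
  rw [← hN]
  have hNm : MeasurableSet N := by
    have : N = ⋃ z ∈ Z, {x | ‖x - z‖ ≤ 1 / 2 ^ (K / 2)} := by
      rw [hN]
      ext x
      simp
    rw [this]
    refine hZf.measurableSet_biUnion fun z _ => ?_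
    exact (isClosed_le ((continuous_id.sub continuous_const).norm) continuous_const).measurableSet
  have hmp := mp_box h2 h3 (L + 2 * P) (L + 2 * P)
  have e1 : μ.real N = μ.real ((fun x : Tor => (2 ^ (L + 2 * P) * 3 ^ (L + 2 * P) : ℕ) • x) ⁻¹' N) := by
    unfold Measure.real
    rw [hmp.measure_preimage hNm.nullMeasurableSet]
  rw [e1]
  refine (good_mass h2 h3 (measurableSet_arcs K S) hL hε hSm).trans
    (measureReal_mono ?_ (measure_ne_top _ _))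
  intro x hx
  obtain ⟨r, a0, b0, ha0, hb0, hxr, hρ, hV⟩ := trap hε hL hP h32 hp1 h6L x hx
  obtain ⟨ρ, hρe⟩ : ∃ ρ : Tor, ρ = (2 ^ (a0 + 2 * P) * 3 ^ (b0 + 2 * P) : ℕ) • r := ⟨_, rfl⟩
  rw [← hρe] at hρ hV
  have hρZ : ρ ∈ Z := by
    apply hZV ρ hρ
    have h4 := V_box hPL hρ (near S K (6 ^ L / 2 ^ K))
    have h5 : V (near S K (6 ^ L / 2 ^ K)) P.factorial ρ ≤ V (W : Set Tor) P.factorial ρ := by
      unfold V
      refine Finset.sum_le_sum fun a _ => Finset.sum_le_sum fun b _ => ?_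
      by_cases hn : (2 ^ a * 3 ^ b : ℕ) • ρ ∈ near S K (6 ^ L / 2 ^ K)
      · rw [if_pos hn, if_pos (Finset.mem_coe.2 ((hW _).2 ⟨Per_pow hρ a b, hn⟩))]
      · rw [if_neg hn]
        exact Nat.zero_le _
    have h6 : P.factorial ^ 2 * V (near S K (6 ^ L / 2 ^ K)) L ρ ≤
        4 * L ^ 2 * V (W : Set Tor) P.factorial ρ := h4.trans (Nat.mul_le_mul_left _ h5)
    have h7 : (P.factorial : ℝ) ^ 2 * V (near S K (6 ^ L / 2 ^ K)) L ρ ≤
        4 * (L : ℝ) ^ 2 * V (W : Set Tor) P.factorial ρ := by exact_mod_cast h6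
    have hLr : (0 : ℝ) < L := by exact_mod_cast hL
    have h8 : (P.factorial : ℝ) ^ 2 * (ε / 8 * (L : ℝ) ^ 2) ≤
        4 * (L : ℝ) ^ 2 * V (W : Set Tor) P.factorial ρ := by
      refine le_trans ?_ h7
      gcongr
    have h9 : (4 * (L : ℝ) ^ 2) * (ε / 32 * (P.factorial : ℝ) ^ 2) ≤
        (4 * (L : ℝ) ^ 2) * V (W : Set Tor) P.factorial ρ := by
      refine le_trans (le_of_eq ?_) h8
      ring
    exact le_of_mul_le_mul_left h9 (by positivity)
  have hinv2 : ∀ z ∈ Z, (2 : ℕ) • z ∈ Z := by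
    intro z hz
    rw [← hZ2]
    exact Set.mem_image_of_mem _ hz
  have hinv3 : ∀ z ∈ Z, (3 : ℕ) • z ∈ Z := by
    intro z hz
    rw [← hZ3]
    exact Set.mem_image_of_mem _ hz
  have hi2 : ∀ a : ℕ, ∀ z ∈ Z, (2 ^ a : ℕ) • z ∈ Z := by
    intro a
    induction a with
    | zero => intro z hz; simpa using hz
    | succ a ih => intro z hz; rw [pow_succ', mul_smul]; exact hinv2 _ (ih z hz)
  have hi3 : ∀ a : ℕ, ∀ z ∈ Z, (3 ^ a : ℕ) • z ∈ Z := by
    intro a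
    induction a with
    | zero => intro z hz; simpa using hz
    | succ a ih => intro z hz; rw [pow_succ', mul_smul]; exact hinv3 _ (ih z hz)
  show (2 ^ (L + 2 * P) * 3 ^ (L + 2 * P) : ℕ) • x ∈ N
  rw [hN]
  refine ⟨(2 ^ (L - a0) : ℕ) • ((3 ^ (L - b0) : ℕ) • ρ), hi2 _ _ (hi3 _ _ hρZ), ?_⟩
  have e2 : (2 ^ (L - a0) : ℕ) • ((3 ^ (L - b0) : ℕ) • ρ) =
      (2 ^ (L + 2 * P) * 3 ^ (L + 2 * P) : ℕ) • r := by
    rw [hρe, ← mul_smul, ← mul_smul]
    congr 1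
    calc 2 ^ (L - a0) * 3 ^ (L - b0) * (2 ^ (a0 + 2 * P) * 3 ^ (b0 + 2 * P))
        = (2 ^ (L - a0) * 2 ^ (a0 + 2 * P)) * (3 ^ (L - b0) * 3 ^ (b0 + 2 * P)) := by ring
      _ = _ := by
        rw [← pow_add, ← pow_add, show L - a0 + (a0 + 2 * P) = L + 2 * P by omega,
          show L - b0 + (b0 + 2 * P) = L + 2 * P by omega]
  rw [e2, ← smul_sub]
  refine (norm_nsmul_le' _ _).trans ?_
  have h66 : ((2 ^ (L + 2 * P) * 3 ^ (L + 2 * P) : ℕ) : ℝ) ≤ 2 ^ (3 * (L + 2 * P)) := by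
    push_cast
    rw [← mul_pow]
    have := h68 (L + 2 * P)
    norm_num at this ⊢
    exact this
  calc ((2 ^ (L + 2 * P) * 3 ^ (L + 2 * P) : ℕ) : ℝ) * ‖x - r‖
      ≤ 2 ^ (3 * (L + 2 * P)) * (1 / 2 ^ K) := by gcongr
    _ ≤ 1 / 2 ^ (K / 2) := by
      rw [mul_one_div, div_le_div_iff₀ hK0 (by positivity), ← pow_add, one_mul]
      exact pow_le_pow_right₀ (by norm_num) hK2

end Helper35.LIM
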