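import Pool.Agent.Helper35.LIM.Defs

/-!
LIM: fast approximation gives limits of finite orbits
-/

set_option autoImplicit false

open MeasureTheory Finset Filter Topology
open Helper75.RE (arc)
open Helper58.FX (ft Erg)
open Helper58.FH (Bx norm_fourier fourier_lip)
open scoped ComplexConjugate

namespace Helper35.LIM

/-- averages of a periodic sequence -/
theorem avg_period (f : ℕ → ℂ) (i L : ℕ) (hi : 0 < i) (hL : 0 < L) (hf : ∀ a, f (a + i) = f a)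
    (h1 : ∀ a, ‖f a‖ ≤ 1) :
    ‖(1 / (L : ℂ)) * ∑ a ∈ range L, f a - (1 / (i : ℂ)) * ∑ a ∈ range i, f a‖ ≤
      2 * (i : ℝ) / L := by
  have hper : ∀ q a : ℕ, f (a + q * i) = f a := by
    intro q
    induction q with
    | zero => intro a; simp
    | succ q ih =>
      intro a
      rw [Nat.add_one_mul, ← add_assoc, hf, ih]
  have hsum : ∀ q ρ : ℕ, ∑ a ∈ range (q * i + ρ), f a =
      q * ∑ a ∈ range i, f a + ∑ a ∈ range ρ, f a := by
    intro q ρ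
    rw [Finset.sum_range_add]
    congr 1
    · induction q with
      | zero => simp
      | succ q ih =>
        rw [Nat.add_one_mul, Finset.sum_range_add, ih]
        push_cast
        rw [add_mul, one_mul]
        congr 1
        refine Finset.sum_congr rfl fun a _ => ?_
        rw [add_comm, hper]
    · refine Finset.sum_congr rfl fun a _ => ?_
      rw [add_comm, hper]
  have hdm := Nat.div_add_mod L i
  have hmod := Nat.mod_lt L hi
  obtain ⟨q, hq⟩ : ∃ q, q = L / i := ⟨_, rfl⟩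
  obtain ⟨ρ, hρ⟩ : ∃ ρ, ρ = L % i := ⟨_, rfl⟩
  rw [← hq, ← hρ, mul_comm] at hdm
  rw [← hρ] at hmod
  have hS : ‖∑ a ∈ range i, f a‖ ≤ i := by
    refine (norm_sum_le _ _).trans ?_
    calc ∑ a ∈ range i, ‖f a‖ ≤ ∑ a ∈ range i, (1 : ℝ) := Finset.sum_le_sum fun a _ => h1 a
      _ = i := by simp
  have hR : ‖∑ a ∈ range ρ, f a‖ ≤ ρ := by
    refine (norm_sum_le _ _).trans ?_
    calc ∑ a ∈ range ρ, ‖f a‖ ≤ ∑ a ∈ range ρ, (1 : ℝ) := Finset.sum_le_sum fun a _ => h1 a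
      _ = ρ := by simp
  have hi' : (i : ℂ) ≠ 0 := by exact_mod_cast hi.ne'
  have hL' : (L : ℂ) ≠ 0 := by exact_mod_cast hL.ne'
  have hir : (0 : ℝ) < i := by exact_mod_cast hi
  have hLr : (0 : ℝ) < L := by exact_mod_cast hL
  have hLe : (L : ℂ) = q * i + ρ := by exact_mod_cast hdm.symm
  have e : (1 / (L : ℂ)) * ∑ a ∈ range L, f a - (1 / (i : ℂ)) * ∑ a ∈ range i, f a =
      (-(ρ : ℂ) / (L * i)) * ∑ a ∈ range i, f a + (1 / (L : ℂ)) * ∑ a ∈ range ρ, f a := by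
    have h2 := hsum q ρ
    rw [hdm] at h2
    rw [h2]
    have h3 : (q : ℂ) = (L - ρ) / i := by
      rw [hLe]
      field_simp
      ring
    rw [h3]
    field_simp
    ring
  rw [e]
  have h4 : ‖(-(ρ : ℂ) / (L * i)) * ∑ a ∈ range i, f a‖ ≤ ρ / L := by
    rw [norm_mul, norm_div, norm_neg, norm_mul, Complex.norm_natCast, Complex.norm_natCast,
      Complex.norm_natCast]
    calc (ρ : ℝ) / (L * i) * ‖∑ a ∈ range i, f a‖ ≤ ρ / (L * i) * i := by gcongr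
      _ = ρ / L := by field_simp
  have h5 : ‖(1 / (L : ℂ)) * ∑ a ∈ range ρ, f a‖ ≤ ρ / L := by
    rw [norm_mul, norm_div, norm_one, Complex.norm_natCast]
    calc 1 / (L : ℝ) * ‖∑ a ∈ range ρ, f a‖ ≤ 1 / L * ρ := by gcongr
      _ = ρ / L := by ring
  have h6 : (ρ : ℝ) ≤ i := by exact_mod_cast hmod.le
  have h7 : (ρ : ℝ) / L ≤ i / L := by gcongr
  calc _ ≤ (ρ : ℝ) / L + ρ / L := (norm_add_le _ _).trans (add_le_add h4 h5)
    _ ≤ i / L + i / L := add_le_add h7 h7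
    _ = 2 * i / L := by ring

theorem fourier_nsmul' (n : ℤ) (m : ℕ) (x : Tor) :
    (fourier n (m • x) : ℂ) = fourier (n * m) x := by
  rw [fourier_apply, fourier_apply]
  congr 2
  rw [← natCast_zsmul, smul_smul]

/-- box averages at a periodic point -/
theorem Bx_orb (r : Tor) (i j L k : ℕ) (hi : 0 < i) (hj : 0 < j) (hL : 0 < L)
    (hri : (2 ^ i : ℕ) • r = r) (hrj : (3 ^ j : ℕ) • r = r) :
    ‖Bx k L L r - orbFt r i j k‖ ≤ 2 * (i : ℝ) / L + 2 * (j : ℝ) / L := by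
  obtain ⟨F, hF⟩ : ∃ F : ℕ → ℕ → ℂ, F = fun a b => (fourier (k : ℤ) ((2 ^ a * 3 ^ b : ℕ) • r) : ℂ) :=
    ⟨_, rfl⟩
  have hF1 : ∀ a b, ‖F a b‖ ≤ 1 := fun a b => by rw [hF]; exact (norm_fourier _ _).le
  have hFa : ∀ a b, F (a + i) b = F a b := by
    intro a b
    rw [hF]
    show (fourier (k : ℤ) ((2 ^ (a + i) * 3 ^ b : ℕ) • r) : ℂ) =
      fourier (k : ℤ) ((2 ^ a * 3 ^ b : ℕ) • r)
    rw [show (2 ^ (a + i) * 3 ^ b : ℕ) = (2 ^ a * 3 ^ b) * 2 ^ i by ring, mul_smul, hri]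
  have hFb : ∀ a b, F a (b + j) = F a b := by
    intro a b
    rw [hF]
    show (fourier (k : ℤ) ((2 ^ a * 3 ^ (b + j) : ℕ) • r) : ℂ) =
      fourier (k : ℤ) ((2 ^ a * 3 ^ b : ℕ) • r)
    rw [show (2 ^ a * 3 ^ (b + j) : ℕ) = (2 ^ a * 3 ^ b) * 3 ^ j by ring, mul_smul, hrj]
  obtain ⟨g, hg⟩ : ∃ g : ℕ → ℂ, g = fun a => (1 / (j : ℂ)) * ∑ b ∈ range j, F a b := ⟨_, rfl⟩
  have hLr : (0 : ℝ) < L := by exact_mod_cast hL
  have hjr : (0 : ℝ) < j := by exact_mod_cast hj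
  have hg1 : ∀ a, ‖g a‖ ≤ 1 := by
    intro a
    rw [hg]
    show ‖(1 / (j : ℂ)) * ∑ b ∈ range j, F a b‖ ≤ 1
    rw [norm_mul, norm_div, norm_one, Complex.norm_natCast]
    have : ‖∑ b ∈ range j, F a b‖ ≤ j := by
      refine (norm_sum_le _ _).trans ?_
      calc ∑ b ∈ range j, ‖F a b‖ ≤ ∑ b ∈ range j, (1 : ℝ) := Finset.sum_le_sum fun b _ => hF1 a b
        _ = j := by simp
    calc 1 / (j : ℝ) * ‖∑ b ∈ range j, F a b‖ ≤ 1 / j * j := by gcongr
      _ = 1 := by field_simp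
  have hga : ∀ a, g (a + i) = g a := by
    intro a
    rw [hg]
    show (1 / (j : ℂ)) * ∑ b ∈ range j, F (a + i) b = (1 / (j : ℂ)) * ∑ b ∈ range j, F a b
    simp only [hFa]
  have e1 : Bx k L L r = (1 / (L : ℂ)) * ∑ a ∈ range L, ((1 / (L : ℂ)) * ∑ b ∈ range L, F a b) := by
    unfold Bx
    rw [Finset.sum_product, mul_inv, ← Finset.mul_sum, one_div, mul_assoc]
    congr 2
    refine Finset.sum_congr rfl fun a _ => Finset.sum_congr rfl fun b _ => ?_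
    rw [hF]
    show _ = (fourier (k : ℤ) ((2 ^ a * 3 ^ b : ℕ) • r) : ℂ)
    rw [fourier_nsmul']
    push_cast
    rfl
  have e2 : orbFt r i j k = (1 / (i : ℂ)) * ∑ a ∈ range i, g a := by
    unfold orbFt
    rw [hg, hF]
    rw [← Finset.mul_sum, one_div, mul_inv, one_div, one_div, mul_assoc]
  have h1 : ‖(1 / (L : ℂ)) * ∑ a ∈ range L, ((1 / (L : ℂ)) * ∑ b ∈ range L, F a b) -
      (1 / (L : ℂ)) * ∑ a ∈ range L, g a‖ ≤ 2 * (j : ℝ) / L := by
    rw [← mul_sub, ← Finset.sum_sub_distrib, norm_mul, norm_div, norm_one, Complex.norm_natCast]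
    have : ‖∑ a ∈ range L, ((1 / (L : ℂ)) * ∑ b ∈ range L, F a b - g a)‖ ≤ L * (2 * (j : ℝ) / L) := by
      refine (norm_sum_le _ _).trans ?_
      calc ∑ a ∈ range L, ‖(1 / (L : ℂ)) * ∑ b ∈ range L, F a b - g a‖
          ≤ ∑ a ∈ range L, (2 * (j : ℝ) / L) := Finset.sum_le_sum fun a _ => by
            rw [hg]
            exact avg_period (F a) j L hj hL (hFb a) (hF1 a)
        _ = L * (2 * (j : ℝ) / L) := by simp
    calc 1 / (L : ℝ) * ‖∑ a ∈ range L, ((1 / (L : ℂ)) * ∑ b ∈ range L, F a b - g a)‖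
        ≤ 1 / L * (L * (2 * (j : ℝ) / L)) := by gcongr
      _ = 2 * (j : ℝ) / L := by field_simp
  have h2 := avg_period g i L hi hL hga hg1
  rw [e1, e2]
  calc _ ≤ ‖(1 / (L : ℂ)) * ∑ a ∈ range L, ((1 / (L : ℂ)) * ∑ b ∈ range L, F a b) -
      (1 / (L : ℂ)) * ∑ a ∈ range L, g a‖ + ‖(1 / (L : ℂ)) * ∑ a ∈ range L, g a -
      (1 / (i : ℂ)) * ∑ a ∈ range i, g a‖ := norm_sub_le_norm_sub_add_norm_sub _ _ _
    _ ≤ 2 * (j : ℝ) / L + 2 * (i : ℝ) / L := add_le_add h1 h2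
    _ = _ := by ring

/-- box averages at nearby points -/
theorem Bx_near (x z : Tor) (k L K : ℕ) (hL : 0 < L) (h : ‖x - z‖ ≤ 1 / 2 ^ K) :
    ‖Bx k L L x - Bx k L L z‖ ≤ 2 * Real.pi * k * (6 ^ L / 2 ^ K) := by
  have hLr : (0 : ℝ) < L := by exact_mod_cast hL
  unfold Bx
  rw [← mul_sub, ← Finset.sum_sub_distrib, norm_mul, norm_inv, norm_mul, Complex.norm_natCast]
  have h1 : ∀ s ∈ range L ×ˢ range L,
      ‖(fourier ((k : ℤ) * (2 ^ s.1 * 3 ^ s.2)) x : ℂ) - fourier ((k : ℤ) * (2 ^ s.1 * 3 ^ s.2)) z‖ ≤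
        2 * Real.pi * k * (6 ^ L / 2 ^ K) := by
    intro s hs
    rw [Finset.mem_product, Finset.mem_range, Finset.mem_range] at hs
    refine (fourier_lip _ _ _).trans ?_
    have e : ((|(k : ℤ) * (2 ^ s.1 * 3 ^ s.2)| : ℤ) : ℝ) = k * (2 ^ s.1 * 3 ^ s.2) := by
      rw [abs_of_nonneg (by positivity)]
      push_cast
      rfl
    have h2 : (2 : ℝ) ^ s.1 * 3 ^ s.2 ≤ 6 ^ L := by
      calc (2 : ℝ) ^ s.1 * 3 ^ s.2 ≤ 2 ^ L * 3 ^ L := by
            gcongr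
            · norm_num
            · exact hs.1.le
            · norm_num
            · exact hs.2.le
        _ = 6 ^ L := by rw [← mul_pow]; norm_num
    have hpi := Real.pi_pos
    rw [e]
    calc 2 * Real.pi * (k * (2 ^ s.1 * 3 ^ s.2)) * ‖x - z‖
        ≤ 2 * Real.pi * (k * 6 ^ L) * (1 / 2 ^ K) := by gcongr
      _ = 2 * Real.pi * k * (6 ^ L / 2 ^ K) := by ring
  have h3 : ‖∑ s ∈ range L ×ˢ range L, ((fourier ((k : ℤ) * (2 ^ s.1 * 3 ^ s.2)) x : ℂ) -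
      fourier ((k : ℤ) * (2 ^ s.1 * 3 ^ s.2)) z)‖ ≤ (L * L) * (2 * Real.pi * k * (6 ^ L / 2 ^ K)) := by
    refine (norm_sum_le _ _).trans ((Finset.sum_le_sum h1).trans (le_of_eq ?_))
    rw [Finset.sum_const, Finset.card_product, Finset.card_range, nsmul_eq_mul]
    push_cast
    ring
  calc _ ≤ ((L : ℝ) * L)⁻¹ * ((L * L) * (2 * Real.pi * k * (6 ^ L / 2 ^ K))) := by gcongr
    _ = _ := by field_simp

/-- periods of the points of a finite invariant set -/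
theorem exists_period (Z : Set Tor) (hZ : Z.Finite) (m : ℕ)
    (h : (fun z : Tor => m • z) '' Z = Z) (z : Tor) (hz : z ∈ Z) :
    ∃ i : ℕ, 0 < i ∧ i ≤ Z.ncard ∧ (m ^ i : ℕ) • z = z := by
  have hmaps : Set.MapsTo (fun z : Tor => m • z) Z Z := by
    intro w hw
    rw [← h]
    exact Set.mem_image_of_mem _ hw
  have hinj : Set.InjOn (fun z : Tor => m • z) Z := by
    rw [← Set.ncard_image_iff hZ, h]
  have hpow : ∀ a : ℕ, (m ^ a : ℕ) • z ∈ Z := by
    intro a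
    induction a with
    | zero => simpa using hz
    | succ a ih =>
      rw [pow_succ', mul_smul]
      exact hmaps ih
  obtain ⟨a, ha, b, hb, hab, he⟩ : ∃ a ∈ range (Z.ncard + 1), ∃ b ∈ range (Z.ncard + 1), a ≠ b ∧
      (m ^ a : ℕ) • z = (m ^ b : ℕ) • z := by
    refine Finset.exists_ne_map_eq_of_card_lt_of_maps_to (t := hZ.toFinset) ?_ ?_
    · rw [Finset.card_range, ← Set.ncard_eq_toFinset_card Z hZ]
      exact Nat.lt_succ_self _
    · intro a _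
      rw [Finset.mem_coe, Set.Finite.mem_toFinset]
      exact hpow a
  have key : ∀ a b : ℕ, (m ^ (a + b) : ℕ) • z = (m ^ a : ℕ) • z → (m ^ b : ℕ) • z = z := by
    intro a
    induction a with
    | zero =>
      intro b hb
      simpa using hb
    | succ a ih =>
      intro b hb
      apply ih
      apply hinj (hpow _) (hpow _)
      show m • ((m ^ (a + b) : ℕ) • z) = m • ((m ^ a : ℕ) • z)
      rw [← mul_smul, ← mul_smul, ← pow_succ', ← pow_succ']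
      rw [show a + b + 1 = a + 1 + b by ring]
      exact hb
  rw [Finset.mem_range] at ha hb
  rcases lt_or_gt_of_ne hab with h1 | h1
  · refine ⟨b - a, by omega, by omega, key a (b - a) ?_⟩
    rw [show a + (b - a) = b by omega]
    exact he.symm
  · refine ⟨a - b, by omega, by omega, key b (a - b) ?_⟩
    rw [show b + (a - b) = a by omega]
    exact he

theorem orbFt_neg (r : Tor) (i j : ℕ) (n : ℤ) : orbFt r i j (-n) = conj (orbFt r i j n) := by
  unfold orbFt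
  rw [map_mul, map_sum]
  congr 1
  · simp
  · refine Finset.sum_congr rfl fun a _ => ?_
    rw [map_sum]
    refine Finset.sum_congr rfl fun b _ => ?_
    rw [fourier_neg]

theorem ft_neg (μ : Measure Tor) (n : ℤ) : ft μ (-n) = conj (ft μ n) := by
  unfold ft
  rw [← integral_conj]
  refine integral_congr_ae (Eventually.of_forall fun x => ?_)
  exact fourier_neg

/-- L3. -/
theorem limit_of_fast {μ : Measure Tor} [IsProbabilityMeasure μ]
    (h2 : MeasurePreserving (fun x : Tor => (2 : ℕ) • x) μ μ)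
    (h3 : MeasurePreserving (fun x : Tor => (3 : ℕ) • x) μ μ) (hE : Erg (ft μ)) (h : Fast μ) :
    OrbitLimit (fun n => ∫ x, (fourier n x : ℂ) ∂μ) := by
  obtain ⟨ε, hε, hf⟩ := h
  intro N δ hδ
  have hNr : (0 : ℝ) < (N : ℝ) + 1 := by positivity
  have hbox : ∀ k : ℕ, ∃ K : ℕ, ∀ I J : ℕ, K ≤ I → K ≤ J →
      ∫ x, ‖Bx k I J x - ft μ k‖ ^ 2 ∂μ ≤ ε / (4 * (N + 1)) * (δ / 4) ^ 2 := fun k =>
    Pool.Agent.Helper40.TMA.box_averages h2 h3 hE k _ (by positivity)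
  choose K₀ hK₀ using hbox
  obtain ⟨M, hM⟩ : ∃ M, ∀ k, k ≤ N → K₀ k ≤ M :=
    ⟨(range (N + 1)).sup K₀, fun k hk => Finset.le_sup (f := K₀) (Finset.mem_range.2 (by omega))⟩
  -- eventualities
  have ev1 : ∀ᶠ K : ℕ in atTop, 64 * (K : ℝ) ^ (-ε) ≤ δ / 4 := by
    have h1 : Tendsto (fun K : ℕ => 64 * (K : ℝ) ^ (-ε)) atTop (𝓝 (64 * 0)) :=
      ((tendsto_rpow_neg_atTop hε).comp tendsto_natCast_atTop_atTop).const_mul 64
    rw [mul_zero] at h1
    exact (h1.eventually (eventually_lt_nhds (show (0 : ℝ) < δ / 4 by positivity))).mono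
      fun _ h => h.le
  have hdiv : Tendsto (fun K : ℕ => K / 8) atTop atTop :=
    Nat.tendsto_div_const_atTop (by norm_num)
  have ev2 : ∀ᶠ K : ℕ in atTop, 2 * Real.pi * N * (1 / 2 : ℝ) ^ (K / 8) ≤ δ / 4 := by
    have h1 : Tendsto (fun K : ℕ => 2 * Real.pi * N * (1 / 2 : ℝ) ^ (K / 8)) atTop
        (𝓝 (2 * Real.pi * N * 0)) :=
      ((tendsto_pow_atTop_nhds_zero_of_lt_one (by norm_num) (by norm_num)).comp hdiv).const_mul _
    rw [mul_zero] at h1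
    exact (h1.eventually (eventually_lt_nhds (show (0 : ℝ) < δ / 4 by positivity))).mono
      fun _ h => h.le
  have ev3 : ∀ᶠ K : ℕ in atTop, M ≤ K / 8 := hdiv.eventually_ge_atTop M
  have ev4 : ∀ᶠ K : ℕ in atTop, 16 ≤ K := eventually_ge_atTop 16
  obtain ⟨K, ⟨Z, hZf, hZ2, hZ3, hZc, hZm⟩, e1, e2, e3, e4⟩ :=
    (hf.and_eventually (ev1.and (ev2.and (ev3.and ev4)))).exists
  obtain ⟨L, hL⟩ : ∃ L, L = K / 8 := ⟨_, rfl⟩
  rw [← hL] at e2 e3
  have hL0 : 0 < L := by omega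
  have h8 : 8 * L ≤ K := by omega
  have h16 : K ≤ 16 * L := by omega
  have hint : ∀ k : ℕ, Integrable (fun x => ‖Bx k L L x - ft μ k‖ ^ 2) μ := by
    intro k
    have hc : Continuous (fun x => ‖Bx k L L x - ft μ k‖ ^ 2) :=
      (((Helper58.FH.continuous_Bx k L L).sub continuous_const).norm).pow 2
    exact hc.integrable_of_hasCompactSupport (HasCompactSupport.of_compactSpace _)
  -- bad sets
  have hbad : ∀ k, k ≤ N → μ.real {x | (δ / 4) ^ 2 ≤ ‖Bx k L L x - ft μ k‖ ^ 2} ≤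
      ε / (4 * (N + 1)) := by
    intro k hk
    have h5 := mul_meas_ge_le_integral_of_nonneg (μ := μ)
      (f := fun x => ‖Bx k L L x - ft μ k‖ ^ 2) (Eventually.of_forall fun x => by positivity)
      (hint k) ((δ / 4) ^ 2)
    have h6 := hK₀ k L L ((hM k hk).trans e3) ((hM k hk).trans e3)
    have h7 : (δ / 4) ^ 2 * μ.real {x | (δ / 4) ^ 2 ≤ ‖Bx k L L x - ft μ k‖ ^ 2} ≤
        (δ / 4) ^ 2 * (ε / (4 * (N + 1))) := by
      refine (h5.trans h6).trans (le_of_eq (by ring))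
    exact le_of_mul_le_mul_left h7 (by positivity)
  have hex : ∃ x : Tor, (∃ z ∈ Z, ‖x - z‖ ≤ 1 / 2 ^ K) ∧
      ∀ k, k ≤ N → ‖Bx k L L x - ft μ k‖ < δ / 4 := by
    by_contra hcon
    push Not at hcon
    have hsub : {x : Tor | ∃ z ∈ Z, ‖x - z‖ ≤ 1 / 2 ^ K} ⊆
        ⋃ k ∈ range (N + 1), {x | (δ / 4) ^ 2 ≤ ‖Bx k L L x - ft μ k‖ ^ 2} := by
      intro x hx
      obtain ⟨k, hk, hk'⟩ := hcon x hx
      rw [Set.mem_iUnion₂]
      refine ⟨k, Finset.mem_range.2 (by omega), ?_⟩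
      show (δ / 4) ^ 2 ≤ ‖Bx k L L x - ft μ k‖ ^ 2
      gcongr
    have h9 : μ.real {x : Tor | ∃ z ∈ Z, ‖x - z‖ ≤ 1 / 2 ^ K} ≤ ε / 4 := by
      refine (measureReal_mono hsub (measure_ne_top _ _)).trans ?_
      refine (measureReal_biUnion_finset_le _ _).trans ?_
      calc ∑ k ∈ range (N + 1), μ.real {x | (δ / 4) ^ 2 ≤ ‖Bx k L L x - ft μ k‖ ^ 2}
          ≤ ∑ k ∈ range (N + 1), ε / (4 * (N + 1)) := Finset.sum_le_sum fun k hk =>
            hbad k (by rw [Finset.mem_range] at hk; omega)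
        _ = ε / 4 := by
          rw [Finset.sum_const, Finset.card_range, nsmul_eq_mul]
          push_cast
          field_simp
    linarith
  obtain ⟨x, ⟨z, hz, hxz⟩, hx⟩ := hex
  obtain ⟨i, hi, hic, hzi⟩ := exists_period Z hZf 2 hZ2 z hz
  obtain ⟨j, hj, hjc, hzj⟩ := exists_period Z hZf 3 hZ3 z hz
  have hKr : (0 : ℝ) < K := by exact_mod_cast (show 0 < K by omega)
  have hLr : (0 : ℝ) < L := by exact_mod_cast hL0
  have hKL : (K : ℝ) ≤ 16 * L := by exact_mod_cast h16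
  have hpow : (K : ℝ) ^ (1 - ε) = K * (K : ℝ) ^ (-ε) := by
    rw [sub_eq_add_neg, Real.rpow_add hKr, Real.rpow_one]
  have hdivb : ∀ m : ℕ, m ≤ Z.ncard → 2 * (m : ℝ) / L ≤ 32 * (K : ℝ) ^ (-ε) := by
    intro m hm
    have hm' : (m : ℝ) ≤ K * (K : ℝ) ^ (-ε) := by
      rw [← hpow]
      exact le_trans (by exact_mod_cast hm) hZc
    rw [div_le_iff₀ hLr]
    calc 2 * (m : ℝ) ≤ 2 * (K * (K : ℝ) ^ (-ε)) := by gcongr
      _ ≤ 2 * ((16 * L) * (K : ℝ) ^ (-ε)) := by gcongr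
      _ = 32 * (K : ℝ) ^ (-ε) * L := by ring
  have h6L : (6 : ℝ) ^ L / 2 ^ K ≤ (1 / 2) ^ L := by
    have h256 : (2 : ℝ) ^ (8 * L) ≤ 2 ^ K := pow_le_pow_right₀ (by norm_num) h8
    calc (6 : ℝ) ^ L / 2 ^ K ≤ 6 ^ L / 2 ^ (8 * L) :=
          div_le_div_of_nonneg_left (by positivity) (by positivity) h256
      _ = (6 / 256) ^ L := by
        rw [pow_mul, div_pow]
        norm_num
      _ ≤ (1 / 2) ^ L := pow_le_pow_left₀ (by norm_num) (by norm_num) _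
  have hpos : ∀ k : ℕ, k ≤ N → ‖orbFt z i j k - ft μ k‖ ≤ δ := by
    intro k hk
    have b1 := Bx_orb z i j L k hi hj hL0 hzi hzj
    have b2 := Bx_near x z k L K hL0 hxz
    have b3 := (hx k hk).le
    have b4 := hdivb i hic
    have b5 := hdivb j hjc
    have hkN : (k : ℝ) ≤ N := by exact_mod_cast hk
    have hpi := Real.pi_pos
    have b6 : 2 * Real.pi * k * (6 ^ L / 2 ^ K) ≤ δ / 4 := by
      calc 2 * Real.pi * k * ((6 : ℝ) ^ L / 2 ^ K) ≤ 2 * Real.pi * N * (1 / 2) ^ L := by gcongr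
        _ ≤ δ / 4 := e2
    have b7 : ‖orbFt z i j k - ft μ k‖ ≤ ‖orbFt z i j k - Bx k L L z‖ +
        (‖Bx k L L z - Bx k L L x‖ + ‖Bx k L L x - ft μ k‖) :=
      (norm_sub_le_norm_sub_add_norm_sub _ (Bx k L L z) _).trans
        (by gcongr; exact norm_sub_le_norm_sub_add_norm_sub _ _ _)
    rw [norm_sub_rev] at b1 b2
    linarith
  refine ⟨z, i, j, hi, hj, hzi, hzj, fun n hn => ?_⟩
  show ‖orbFt z i j n - ft μ n‖ ≤ δ
  rcases le_total 0 n with h0 | h0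
  · obtain ⟨k, rfl⟩ := Int.eq_ofNat_of_zero_le h0
    exact hpos k (by rw [abs_of_nonneg h0] at hn; exact_mod_cast hn)
  · obtain ⟨k, hk⟩ := Int.eq_ofNat_of_zero_le (show 0 ≤ -n by omega)
    have hnk : n = -(k : ℤ) := by omega
    rw [hnk, orbFt_neg, ft_neg, ← map_sub, RCLike.norm_conj]
    apply hpos k
    rw [hnk, abs_neg, abs_of_nonneg (by positivity)] at hn
    exact_mod_cast hn

end Helper35.LIM
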