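import Pool.Agent.Helper35.LIM.Lim
import Pool.Agent.Helper35.LIM.Few
import Pool.Agent.Helper35.LIM.Clo
import Pool.Agent.Helper28.LIM.B
import Pool.Agent.Helper40.LPA.Trace

/-!
LIM: an extreme trace with small entropy at infinitely many scales is a limit of extreme traces of
finite conditional dimension
-/

set_option autoImplicit false

open MeasureTheory Finset Filter Topology Helper17.FU Helper17.FUGroup
open Helper75.RE (arc)
open Helper91.TTT (GG IsTr)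
open Helper58.FX (ft Erg)

namespace Helper35.LIM

/-- few arcs and fast approximation by finite invariant sets are the same -/
theorem few_iff_fast {μ : Measure Tor} [IsProbabilityMeasure μ]
    (h2 : MeasurePreserving (fun x : Tor => (2 : ℕ) • x) μ μ)
    (h3 : MeasurePreserving (fun x : Tor => (3 : ℕ) • x) μ μ) : FewArcs μ ↔ Fast μ :=
  ⟨fast_of_few h2 h3, few_of_fast⟩

variable {s2 s3 t : Equiv.Perm ℚ}

/-- the measure of an extreme trace is invariant -/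
theorem invariant (h2 : ∀ x : ℚ, s2 x = 2 * x) (h3 : ∀ x : ℚ, s3 x = 3 * x)
    (ht : ∀ x : ℚ, t x = x + 1) {τ : GG s2 s3 t} (hτ : (τ : Equiv.Perm ℚ) = t)
    {φ : GG s2 s3 t → ℂ} (hφ : φ ∈ Set.extremePoints ℝ (TR (GG s2 s3 t)))
    {μ : Measure Tor} [IsProbabilityMeasure μ]
    (hμ : ∀ m : ℤ, ∫ x, (fourier m x : ℂ) ∂μ = φ (τ ^ m)) :
    MeasurePreserving (fun x : Tor => (2 : ℕ) • x) μ μ ∧
      MeasurePreserving (fun x : Tor => (3 : ℕ) • x) μ μ := by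
  obtain ⟨μ', hμ'p, hμ', hm2, hm3⟩ := Pool.Agent.Helper40.TMA.exists_measure h2 h3 ht hτ hφ
  have h5 : μ = μ' := by
    apply Helper17.TranslM.eq_of_fourier
    intro m
    rw [hμ' m]
    exact hμ m
  rw [h5]
  exact ⟨hm2, hm3⟩

/-- few arcs give a limit of extreme traces of finite conditional dimension -/
theorem closure_of_few (h2 : ∀ x : ℚ, s2 x = 2 * x) (h3 : ∀ x : ℚ, s3 x = 3 * x)
    (ht : ∀ x : ℚ, t x = x + 1) {τ : GG s2 s3 t} (hτ : (τ : Equiv.Perm ℚ) = t)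
    {φ : GG s2 s3 t → ℂ} (hφ : φ ∈ Set.extremePoints ℝ (TR (GG s2 s3 t)))
    {μ : Measure Tor} [IsProbabilityMeasure μ]
    (hμ : ∀ m : ℤ, ∫ x, (fourier m x : ℂ) ∂μ = φ (τ ^ m)) (h : FewArcs μ) :
    φ ∈ closure {ψ : GG s2 s3 t → ℂ | ψ ∈ Set.extremePoints ℝ (TR (GG s2 s3 t)) ∧
      FiniteDimensional ℂ (Submodule.span ℂ {F : GG s2 s3 t → ℂ | ∃ n : GG s2 s3 t,
        IsTr n ∧ F = fun x => ψ (n * x)})} := by
  obtain ⟨hm2, hm3⟩ := invariant h2 h3 ht hτ hφ hμ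
  have hE : Erg (ft μ) := Pool.Agent.Helper40.TMA.erg_of_extreme h2 h3 ht hτ hφ hμ
  have h1 := limit_of_fast hm2 hm3 hE (fast_of_few hm2 hm3 h)
  apply Helper35.LIMC.closure_of_limit h2 h3 ht hτ hφ
  have e : (fun n : ℤ => ∫ x, (fourier n x : ℂ) ∂μ) = fun n => φ (τ ^ n) := by
    funext n
    exact hμ n
  rw [← e]
  exact h1

/-- LIM. -/
theorem lim (h2 : ∀ x : ℚ, s2 x = 2 * x) (h3 : ∀ x : ℚ, s3 x = 3 * x)
    (ht : ∀ x : ℚ, t x = x + 1) {τ : GG s2 s3 t} (hτ : (τ : Equiv.Perm ℚ) = t)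
    {φ : GG s2 s3 t → ℂ} (hφ : φ ∈ Set.extremePoints ℝ (TR (GG s2 s3 t)))
    {μ : Measure Tor} [IsProbabilityMeasure μ]
    (hμ : ∀ m : ℤ, ∫ x, (fourier m x : ℂ) ∂μ = φ (τ ^ m)) {c : ℝ} (hc : c < 1) :
    (∀ᶠ K : ℕ in atTop,
      c * Real.log K ≤ ∑ i ∈ range (2 ^ K), Real.negMulLog (μ.real (arc K i))) ∨
    φ ∈ closure {ψ : GG s2 s3 t → ℂ | ψ ∈ Set.extremePoints ℝ (TR (GG s2 s3 t)) ∧
      FiniteDimensional ℂ (Submodule.span ℂ {F : GG s2 s3 t → ℂ | ∃ n : GG s2 s3 t,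
        IsTr n ∧ F = fun x => ψ (n * x)})} := by
  by_cases h : ∀ᶠ K : ℕ in atTop,
      c * Real.log K ≤ ∑ i ∈ range (2 ^ K), Real.negMulLog (μ.real (arc K i))
  · exact Or.inl h
  · right
    apply closure_of_few h2 h3 ht hτ hφ hμ
    apply few_of_entropy hc
    rw [Filter.not_eventually] at h
    exact h.mono fun K hK => (not_le.1 hK).le

end Helper35.LIM
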