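import Pool.Agent.Helper35.LIM.Defs

/-!
LIM: points of small periods and visits
-/

set_option autoImplicit false

open MeasureTheory Finset Filter Topology

namespace Helper35.LIM

/-- points with small periods -/
def Per (P : ℕ) : Set Tor :=
  {z | ∃ i j : ℕ, 1 ≤ i ∧ i ≤ P ∧ 1 ≤ j ∧ j ≤ P ∧ (2 ^ i : ℕ) • z = z ∧ (3 ^ j : ℕ) • z = z}

theorem Per_finite (P : ℕ) : (Per P).Finite := by
  have h : Per P ⊆ ⋃ i ∈ Finset.Icc 1 P, {z : Tor | (2 ^ i - 1 : ℕ) • z = 0} := by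
    rintro z ⟨i, j, hi, hiP, _, _, h2, _⟩
    rw [Set.mem_iUnion₂]
    refine ⟨i, Finset.mem_Icc.2 ⟨hi, hiP⟩, ?_⟩
    show (2 ^ i - 1 : ℕ) • z = 0
    have e : (2 ^ i : ℕ) = (2 ^ i - 1) + 1 := by
      have := Nat.one_le_two_pow (n := i)
      omega
    have h3 : ((2 ^ i - 1 : ℕ) + 1) • z = z := by rw [← e]; exact h2
    rw [add_smul, one_smul] at h3
    exact add_eq_right.1 h3
  refine Set.Finite.subset (Set.Finite.biUnion (Finset.finite_toSet _) fun i hi => ?_) h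
  rw [Finset.mem_coe, Finset.mem_Icc] at hi
  refine AddCircle.finite_torsion (1 : ℝ) ?_
  have : 2 ^ 1 ≤ 2 ^ i := Nat.pow_le_pow_right (by norm_num) hi.1
  omega

theorem pow_fix {m i : ℕ} {z : Tor} (h : (m ^ i : ℕ) • z = z) (q : ℕ) :
    (m ^ (i * q) : ℕ) • z = z := by
  induction q with
  | zero => simp
  | succ q ih =>
    rw [Nat.mul_succ, pow_add, mul_smul, h, ih]

theorem Per_two {P : ℕ} {z : Tor} (h : z ∈ Per P) : (2 : ℕ) • z ∈ Per P := by
  obtain ⟨i, j, hi, hiP, hj, hjP, h2, h3⟩ := h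
  refine ⟨i, j, hi, hiP, hj, hjP, ?_, ?_⟩
  · rw [smul_comm, h2]
  · rw [smul_comm, h3]

theorem Per_three {P : ℕ} {z : Tor} (h : z ∈ Per P) : (3 : ℕ) • z ∈ Per P := by
  obtain ⟨i, j, hi, hiP, hj, hjP, h2, h3⟩ := h
  refine ⟨i, j, hi, hiP, hj, hjP, ?_, ?_⟩
  · rw [smul_comm, h2]
  · rw [smul_comm, h3]

theorem Per_two_inv {P : ℕ} {z : Tor} (h : z ∈ Per P) : (2 ^ P.factorial : ℕ) • z = z := by
  obtain ⟨i, j, hi, hiP, hj, hjP, h2, h3⟩ := h
  obtain ⟨q, hq⟩ := Nat.dvd_factorial hi hiP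
  rw [hq]
  exact pow_fix h2 q

theorem Per_three_inv {P : ℕ} {z : Tor} (h : z ∈ Per P) : (3 ^ P.factorial : ℕ) • z = z := by
  obtain ⟨i, j, hi, hiP, hj, hjP, h2, h3⟩ := h
  obtain ⟨q, hq⟩ := Nat.dvd_factorial hj hjP
  rw [hq]
  exact pow_fix h3 q

theorem Per_pow {P : ℕ} {z : Tor} (h : z ∈ Per P) (a b : ℕ) : (2 ^ a * 3 ^ b : ℕ) • z ∈ Per P := by
  have h1 : ∀ b : ℕ, (3 ^ b : ℕ) • z ∈ Per P := by
    intro b
    induction b with
    | zero => simpa using h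
    | succ b ih =>
      rw [pow_succ', mul_smul]
      exact Per_three ih
  induction a with
  | zero => simpa using h1 b
  | succ a ih =>
    rw [pow_succ', mul_assoc, mul_smul]
    exact Per_two ih

theorem Per_inj {P : ℕ} (a b : ℕ) : Set.InjOn (fun z : Tor => (2 ^ a * 3 ^ b : ℕ) • z) (Per P) := by
  intro z hz w hw h
  have hM : 1 ≤ P.factorial := Nat.factorial_pos P
  have key : ∀ y ∈ Per P, (2 ^ (P.factorial * a - a) * 3 ^ (P.factorial * b - b) : ℕ) •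
      ((2 ^ a * 3 ^ b : ℕ) • y) = y := by
    intro y hy
    have ha : a ≤ P.factorial * a := Nat.le_mul_of_pos_left a hM
    have hb : b ≤ P.factorial * b := Nat.le_mul_of_pos_left b hM
    rw [← mul_smul]
    have e : 2 ^ (P.factorial * a - a) * 3 ^ (P.factorial * b - b) * (2 ^ a * 3 ^ b) =
        2 ^ (P.factorial * a) * 3 ^ (P.factorial * b) := by
      calc 2 ^ (P.factorial * a - a) * 3 ^ (P.factorial * b - b) * (2 ^ a * 3 ^ b)
          = (2 ^ (P.factorial * a - a) * 2 ^ a) * (3 ^ (P.factorial * b - b) * 3 ^ b) := by ring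
        _ = _ := by rw [← pow_add, ← pow_add, Nat.sub_add_cancel ha, Nat.sub_add_cancel hb]
    rw [e, mul_smul, pow_fix (Per_three_inv hy), pow_fix (Per_two_inv hy)]
  have h' : (2 ^ a * 3 ^ b : ℕ) • z = (2 ^ a * 3 ^ b : ℕ) • w := h
  rw [← key z hz, ← key w hw, h']

open Classical in
/-- number of visits -/
noncomputable def V (W : Set Tor) (M : ℕ) (z : Tor) : ℕ :=
  ∑ a ∈ range M, ∑ b ∈ range M, if (2 ^ a * 3 ^ b : ℕ) • z ∈ W then 1 else 0

theorem per_box (g : ℕ → ℕ) (i L M : ℕ) (hi : 0 < i) (hiL : i ≤ L) (hiM : i ∣ M)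
    (hg : ∀ a, g (a + i) = g a) :
    M * ∑ a ∈ range L, g a ≤ 2 * L * ∑ a ∈ range M, g a := by
  have hper : ∀ q a : ℕ, g (a + q * i) = g a := by
    intro q
    induction q with
    | zero => intro a; simp
    | succ q ih =>
      intro a
      rw [Nat.add_one_mul, ← add_assoc, hg, ih]
  have hsum : ∀ q : ℕ, ∑ a ∈ range (q * i), g a = q * ∑ a ∈ range i, g a := by
    intro q
    induction q with
    | zero => simp
    | succ q ih =>
      rw [Nat.add_one_mul, Finset.sum_range_add, ih, Nat.add_one_mul]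
      congr 1
      refine Finset.sum_congr rfl fun a _ => ?_
      rw [add_comm, hper]
  obtain ⟨m, rfl⟩ := hiM
  obtain ⟨s, hs⟩ : ∃ s, s = ∑ a ∈ range i, g a := ⟨_, rfl⟩
  have h1 : ∑ a ∈ range L, g a ≤ (L / i + 1) * s := by
    rw [hs, ← hsum]
    refine Finset.sum_le_sum_of_subset (Finset.range_mono ?_)
    have := Nat.div_add_mod L i
    have := Nat.mod_lt L hi
    nlinarith
  have h2 : ∑ a ∈ range (i * m), g a = m * s := by
    rw [mul_comm, hsum, hs]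
  rw [h2]
  have h3 : i * (L / i + 1) ≤ 2 * L := by
    have := Nat.mul_div_le L i
    rw [mul_add, mul_one]
    omega
  calc i * m * ∑ a ∈ range L, g a ≤ i * m * ((L / i + 1) * s) := Nat.mul_le_mul_left _ h1
    _ = (i * (L / i + 1)) * (m * s) := by ring
    _ ≤ 2 * L * (m * s) := Nat.mul_le_mul_right _ h3

theorem V_box {P L : ℕ} (hPL : P ≤ L) {z : Tor} (hz : z ∈ Per P) (W : Set Tor) :
    P.factorial ^ 2 * V W L z ≤ 4 * L ^ 2 * V W P.factorial z := by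
  classical
  obtain ⟨i, j, hi, hiP, hj, hjP, h2, h3⟩ := hz
  obtain ⟨F, hF⟩ : ∃ F : ℕ → ℕ → ℕ, F = fun a b => if (2 ^ a * 3 ^ b : ℕ) • z ∈ W then 1 else 0 :=
    ⟨_, rfl⟩
  have hFa : ∀ a b, F (a + i) b = F a b := by
    intro a b
    rw [hF]
    show (if (2 ^ (a + i) * 3 ^ b : ℕ) • z ∈ W then 1 else 0) =
      if (2 ^ a * 3 ^ b : ℕ) • z ∈ W then 1 else 0
    rw [show (2 ^ (a + i) * 3 ^ b : ℕ) = (2 ^ a * 3 ^ b) * 2 ^ i by ring, mul_smul, h2]
  have hFb : ∀ a b, F a (b + j) = F a b := by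
    intro a b
    rw [hF]
    show (if (2 ^ a * 3 ^ (b + j) : ℕ) • z ∈ W then 1 else 0) =
      if (2 ^ a * 3 ^ b : ℕ) • z ∈ W then 1 else 0
    rw [show (2 ^ a * 3 ^ (b + j) : ℕ) = (2 ^ a * 3 ^ b) * 3 ^ j by ring, mul_smul, h3]
  obtain ⟨M, hM⟩ : ∃ M, M = P.factorial := ⟨_, rfl⟩
  have e1 : ∀ N, V W N z = ∑ a ∈ range N, ∑ b ∈ range N, F a b := by
    intro N
    rw [hF]
    unfold V
    refine Finset.sum_congr rfl fun a _ => Finset.sum_congr rfl fun b _ => ?_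
    congr
  have b1 := per_box (fun a => ∑ b ∈ range L, F a b) i L M (by omega) (by omega)
    (hM ▸ Nat.dvd_factorial hi hiP) (fun a => by simp only [hFa])
  have b2 : ∀ a, M * ∑ b ∈ range L, F a b ≤ 2 * L * ∑ b ∈ range M, F a b := fun a =>
    per_box (F a) j L M (by omega) (by omega) (hM ▸ Nat.dvd_factorial hj hjP) (hFb a)
  rw [← hM, e1, e1]
  calc M ^ 2 * ∑ a ∈ range L, ∑ b ∈ range L, F a b
      = M * (M * ∑ a ∈ range L, ∑ b ∈ range L, F a b) := by ring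
    _ ≤ M * (2 * L * ∑ a ∈ range M, ∑ b ∈ range L, F a b) := Nat.mul_le_mul_left _ b1
    _ = 2 * L * ∑ a ∈ range M, (M * ∑ b ∈ range L, F a b) := by
      rw [← Finset.mul_sum]
      ring
    _ ≤ 2 * L * ∑ a ∈ range M, (2 * L * ∑ b ∈ range M, F a b) :=
      Nat.mul_le_mul_left _ (Finset.sum_le_sum fun a _ => b2 a)
    _ = 4 * L ^ 2 * ∑ a ∈ range M, ∑ b ∈ range M, F a b := by
      rw [← Finset.mul_sum]
      ring

theorem sum_shift (g : ℕ → ℕ) (M : ℕ) (h : g M = g 0) :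
    ∑ a ∈ range M, g (a + 1) = ∑ a ∈ range M, g a := by
  have h1 := Finset.sum_range_succ' g M
  have h2 := Finset.sum_range_succ g M
  omega

theorem V_two {M : ℕ} {z : Tor} (hz : (2 ^ M : ℕ) • z = z) (W : Set Tor) :
    V W M ((2 : ℕ) • z) = V W M z := by
  classical
  unfold V
  rw [← sum_shift (fun a => ∑ b ∈ range M, if (2 ^ a * 3 ^ b : ℕ) • z ∈ W then 1 else 0) M]
  · refine Finset.sum_congr rfl fun a _ => Finset.sum_congr rfl fun b _ => ?_
    rw [← mul_smul, show (2 ^ a * 3 ^ b * 2 : ℕ) = 2 ^ (a + 1) * 3 ^ b by ring]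
  · refine Finset.sum_congr rfl fun b _ => ?_
    rw [pow_zero, one_mul, mul_comm, mul_smul, hz]

theorem V_three {M : ℕ} {z : Tor} (hz : (3 ^ M : ℕ) • z = z) (W : Set Tor) :
    V W M ((3 : ℕ) • z) = V W M z := by
  classical
  unfold V
  refine Finset.sum_congr rfl fun a _ => ?_
  have h := sum_shift (fun b => if (2 ^ a * 3 ^ b : ℕ) • z ∈ W then 1 else 0) M (by
    rw [pow_zero, mul_one, mul_smul, hz])
  refine Eq.trans (Finset.sum_congr rfl fun b _ => ?_) (h.trans ?_)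
  · rw [← mul_smul, show (2 ^ a * 3 ^ b * 3 : ℕ) = 2 ^ a * 3 ^ (b + 1) by ring]
  · rfl

theorem V_le (W : Set Tor) (M : ℕ) (z : Tor) : V W M z ≤ M ^ 2 := by
  classical
  unfold V
  calc _ ≤ ∑ a ∈ range M, ∑ b ∈ range M, 1 :=
        Finset.sum_le_sum fun a _ => Finset.sum_le_sum fun b _ => by split_ifs <;> omega
    _ = M ^ 2 := by simp [sq]

/-- the total number of visits -/
theorem sum_V (P : ℕ) (D : Finset Tor) (U : Set Tor) (W : Finset Tor) (hD : ∀ z ∈ D, z ∈ Per P)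
    (hW : ∀ z, z ∈ U → z ∈ W) (M : ℕ) :
    ∑ z ∈ D, V U M z ≤ M ^ 2 * W.card := by
  classical
  unfold V
  rw [Finset.sum_comm]
  calc _ ≤ ∑ a ∈ range M, ∑ b ∈ range M, W.card := by
        refine Finset.sum_le_sum fun a _ => ?_
        rw [Finset.sum_comm]
        refine Finset.sum_le_sum fun b _ => ?_
        refine le_trans (le_of_eq (Finset.card_filter _ _).symm) ?_
        refine Finset.card_le_card_of_injOn (fun z : Tor => (2 ^ a * 3 ^ b : ℕ) • z) ?_ ?_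
        · intro z hz
          rw [Finset.mem_coe, Finset.mem_filter] at hz
          exact hW _ hz.2
        · intro z hz w hw h
          rw [Finset.mem_coe, Finset.mem_filter] at hz hw
          exact Per_inj a b (hD z hz.1) (hD w hw.1) h
    _ = M ^ 2 * W.card := by
      simp only [Finset.sum_const, Finset.card_range, smul_eq_mul]
      ring

/-- a finite invariant set of frequent visitors -/
theorem exists_Z (P : ℕ) (W : Finset Tor) (c : ℝ) (hc : 0 < c) :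
    ∃ Z : Set Tor, Z.Finite ∧ (fun z : Tor => (2 : ℕ) • z) '' Z = Z ∧
      (fun z : Tor => (3 : ℕ) • z) '' Z = Z ∧ (Z.ncard : ℝ) ≤ W.card / c ∧
      ∀ z ∈ Per P, c * (P.factorial : ℝ) ^ 2 ≤ V (W : Set Tor) P.factorial z → z ∈ Z := by
  classical
  obtain ⟨M, hM⟩ : ∃ M, M = P.factorial := ⟨_, rfl⟩
  have hM1 : 1 ≤ M := hM ▸ Nat.factorial_pos P
  obtain ⟨D, hD⟩ : ∃ D : Finset Tor, D = (Per_finite P).toFinset.filter
    (fun z => c * (M : ℝ) ^ 2 ≤ V (W : Set Tor) M z) := ⟨_, rfl⟩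
  have hmem : ∀ z, z ∈ D ↔ z ∈ Per P ∧ c * (M : ℝ) ^ 2 ≤ V (W : Set Tor) M z := by
    intro z
    rw [hD, Finset.mem_filter, Set.Finite.mem_toFinset]
  have hfix2 : ∀ z ∈ D, (2 ^ M : ℕ) • z = z := fun z hz => hM ▸ Per_two_inv ((hmem z).1 hz).1
  have hfix3 : ∀ z ∈ D, (3 ^ M : ℕ) • z = z := fun z hz => hM ▸ Per_three_inv ((hmem z).1 hz).1
  have h2 : ∀ z ∈ D, (2 : ℕ) • z ∈ D := by
    intro z hz
    rw [hmem, V_two (hfix2 z hz)]
    exact ⟨Per_two ((hmem z).1 hz).1, ((hmem z).1 hz).2⟩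
  have h3 : ∀ z ∈ D, (3 : ℕ) • z ∈ D := by
    intro z hz
    rw [hmem, V_three (hfix3 z hz)]
    exact ⟨Per_three ((hmem z).1 hz).1, ((hmem z).1 hz).2⟩
  have hp2 : ∀ a : ℕ, ∀ z ∈ D, (2 ^ a : ℕ) • z ∈ D := by
    intro a
    induction a with
    | zero => intro z hz; simpa using hz
    | succ a ih => intro z hz; rw [pow_succ', mul_smul]; exact h2 _ (ih z hz)
  have hp3 : ∀ a : ℕ, ∀ z ∈ D, (3 ^ a : ℕ) • z ∈ D := by
    intro a
    induction a with
    | zero => intro z hz; simpa using hz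
    | succ a ih => intro z hz; rw [pow_succ', mul_smul]; exact h3 _ (ih z hz)
  refine ⟨(D : Set Tor), D.finite_toSet, ?_, ?_, ?_, ?_⟩
  · apply Set.Subset.antisymm
    · rintro _ ⟨z, hz, rfl⟩
      exact h2 z hz
    · intro z hz
      refine ⟨(2 ^ (M - 1) : ℕ) • z, hp2 _ z hz, ?_⟩
      show (2 : ℕ) • ((2 ^ (M - 1) : ℕ) • z) = z
      rw [← mul_smul, ← pow_succ', Nat.sub_add_cancel hM1]
      exact hfix2 z hz
  · apply Set.Subset.antisymm
    · rintro _ ⟨z, hz, rfl⟩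
      exact h3 z hz
    · intro z hz
      refine ⟨(3 ^ (M - 1) : ℕ) • z, hp3 _ z hz, ?_⟩
      show (3 : ℕ) • ((3 ^ (M - 1) : ℕ) • z) = z
      rw [← mul_smul, ← pow_succ', Nat.sub_add_cancel hM1]
      exact hfix3 z hz
  · rw [Set.ncard_coe_finset, le_div_iff₀ hc]
    have hs := sum_V P D (W : Set Tor) W (fun z hz => ((hmem z).1 hz).1) (fun z h => h) M
    have hs' : ∑ z ∈ D, (c * (M : ℝ) ^ 2) ≤ (M : ℝ) ^ 2 * W.card := by
      calc ∑ z ∈ D, (c * (M : ℝ) ^ 2) ≤ ∑ z ∈ D, (V (W : Set Tor) M z : ℝ) :=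
            Finset.sum_le_sum fun z hz => ((hmem z).1 hz).2
        _ ≤ (M : ℝ) ^ 2 * W.card := by exact_mod_cast hs
    rw [Finset.sum_const, nsmul_eq_mul] at hs'
    have hMr : (0 : ℝ) < (M : ℝ) ^ 2 := by positivity
    have : (M : ℝ) ^ 2 * ((D.card : ℝ) * c) ≤ (M : ℝ) ^ 2 * W.card := by linarith
    exact le_of_mul_le_mul_left this hMr
  · intro z hz h
    rw [Finset.mem_coe, hmem, hM]
    exact ⟨hz, h⟩

end Helper35.LIM
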